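import Pool.Agent.helper60.XP.Defs
import Pool.Agent.helper10.V3.SpecL

/-!
# Project xp: (MP_af9036_an), part T: START (the first point of the chain, cases A and B)

Paper: /team-store/MP_af9036_XP_helper60.md, section 4, quoted as [XP, (x.y)]. File `Pool/Agent/<seat>/XP/XX.lean`: `import Pool.Agent.helper60.XP.SpecT`,
`set_option autoImplicit false`, `open Complex Metric Set Filter Topology MeasureTheory`, `open V3S (UF)`, `open XP`, `noncomputable section`, `namespace XPT`, `theorem XX (h : YY_stmt) ... : XX_stmt`.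
Hypotheses may be: other statements of this file (no circles), the tools of Pool/Agent/helper54/V3/SpecT.lean (`V3.KO0_stmt`, `V3.KO1_stmt`, `V3.KO3_stmt`, `V3.TUL_stmt`, `V3.TMO_stmt`, `V3.TDE_stmt`, `V3.TMX_stmt`, `V3.TBX_stmt`, ..),
`V3S.NCH_stmt`, and the statements of Pool/Agent/helper54/XP/SpecS.lean (`XPS.LEAX_stmt, LVG_stmt, MAX_stmt, MIX_stmt, ..`), all proved. Auxiliary lemmas are prefixed `XX_`. No `sorry`, no double quotes in comments.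
`V3S.UF_le : UF ≤ atTop` turns `∀ᶠ m in atTop` into `∀ᶠ m in UF`; `V3S.UF_em`, `V3S.UF_not`; `UF` is by definition the coercion of `hyperfilter ℕ`.
In the x-plane: `D.zz (D.F j x) = D.it j (D.zz x)`, `deriv (D.F j) x = deriv (D.it j) (D.zz x)` (affine conjugation, `sg = R 0 ≠ 0`).
-/

set_option autoImplicit false

open Complex Metric Set Filter Topology MeasureTheory
open V3S (UF)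
open XP

noncomputable section

namespace XPT

/-! ## Pure analysis -/

/-- INVG: inverse of a map near the identity.
PROOF. `‖G' - 1‖ ≤ 1/20` on `ball 0 (3/5)` (Cauchy: `h = G - id` is `≤ 1/50` on `ball 0 1`, radius `2/5`), so `G` is injective on `ball 0 (3/5)` and `closedBall 0 s ⊇` .. : for `‖x‖ < 1/2` the map `y ↦ y - (G y - x)` maps `closedBall 0 (11/20)` into itself (`‖y - G y + x‖ ≤ 1/50 + 1/2`) and is a contraction: unique fixed point `Ψ x`.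
`Ψ` is holomorphic (inverse of an injective holomorphic map with `G' ≠ 0`: `HasDerivAt` of local inverses). `‖Ψ x - x‖ = ‖Ψ x - G (Ψ x)‖ ≤ ‖Ψ x‖/50 ≤ ‖x‖/25`. -/
def INVG_stmt : Prop := ∀ G : ℂ → ℂ, DifferentiableOn ℂ G (ball 0 1) →
  (∀ y ∈ ball (0 : ℂ) 1, ‖G y - y‖ ≤ ‖y‖ / 50) → ∃ Ψ : ℂ → ℂ, DifferentiableOn ℂ Ψ (ball 0 (1 / 2)) ∧ Ψ 0 = 0 ∧
    ∀ x ∈ ball (0 : ℂ) (1 / 2), Ψ x ∈ ball (0 : ℂ) 1 ∧ G (Ψ x) = x ∧ ‖Ψ x - x‖ ≤ ‖x‖ / 25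

/-- INVL: the same on a ball, uniform version.
PROOF. As INVG: on `ball x₀ (3ρ/2)` `‖G' - 1‖ ≤ ε/(ρ/2) ≤ 1/2`; for `x ∈ ball x₀ ρ` the map `y ↦ y - G y + x` is a contraction of `closedBall x ε` (contained in `ball x₀ (3ρ/2)`). -/
def INVL_stmt : Prop := ∀ (G : ℂ → ℂ) (x₀ : ℂ) (ρ ε : ℝ), 0 < ρ → 0 ≤ ε → ε ≤ ρ / 4 →
  DifferentiableOn ℂ G (ball x₀ (2 * ρ)) → (∀ y ∈ ball x₀ (2 * ρ), ‖G y - y‖ ≤ ε) →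
  ∃ Ψ : ℂ → ℂ, DifferentiableOn ℂ Ψ (ball x₀ ρ) ∧
    ∀ x ∈ ball x₀ ρ, Ψ x ∈ ball x₀ (3 * ρ / 2) ∧ G (Ψ x) = x ∧ ‖Ψ x - x‖ ≤ ε

/-- DIR: Dirichlet. PROOF. Pigeonhole: two powers `ζ^i, ζ^j`, `i < j`, at distance `≤ ε` (the sequence is bounded), divide. -/
def DIR_stmt : Prop := ∀ ζ : ℂ, ‖ζ‖ = 1 → ∀ ε > (0 : ℝ), ∃ N : ℕ, 1 ≤ N ∧ ‖ζ ^ N - 1‖ ≤ ε

/-- DIA: diagonal choice along the ultrafilter.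
PROOF. `L m` = the largest `l ≤ m` with `S l m` (`0` if there is none; `Nat.findGreatest`). For every `l` the set `{m | l ≤ m ∧ S l m}` is in `UF` (`UF_le`), and there `l ≤ L m`, `S (L m) m`. -/
def DIA_stmt : Prop := ∀ S : ℕ → ℕ → Prop, (∀ l, ∀ᶠ m in UF, S l m) →
  ∃ L : ℕ → ℕ, Tendsto L UF atTop ∧ ∀ᶠ m in UF, S (L m) m

/-- RTU: the uniformising coordinate [XP, (4.5)].
PROOF. `E = E 0 · e^{2 l}` near `0` with `l` analytic, `l 0 = 0`. If `d = -2`: `u x = x exp (∫_0^x (e^{l} - 1)/ξ dξ)`: `u'/u = e^l/x`, so `u'^2 u^{-2} = e^{2l}/x² = B/E 0`. If `d ≥ -1`: put `m = d + 2 ≥ 1` (natural number); the power series `∫_0^x ξ^{m-1}... `: we need `u'^2 u^d = x^d e^{2l}`; with `u = x κ(x)`: let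
`P x = (m/2) x^{-m/2} ∫_0^x ξ^{(m-2)/2} e^{l ξ} dξ`, i.e. for `e^l = ∑ c_j x^j`: `P = ∑ c_j (m/2)/(m/2 + j) x^j` (analytic, `P 0 = 1`), and `κ = P^{2/m}` (principal power near `1`), `u = x κ`. Check: `W = x^{m/2} P` formally has `W' = (m/2) x^{m/2-1} e^l`; algebraically `(m/2) P + x P' = (m/2) e^l`, so
`κ + x κ' = κ (1 + (2/m) x P'/P) = κ e^l/P`, hence `u'^2 u^d = κ^2 e^{2l} P^{-2} x^d κ^d = x^d e^{2l} κ^m/P² = x^d e^{2l}`. -/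
def RTU_stmt : Prop := ∀ (B E : ℂ → ℂ) (d : ℤ), -2 ≤ d → AnalyticAt ℂ E 0 → E 0 ≠ 0 →
  (∀ᶠ x in 𝓝[≠] (0 : ℂ), B x = x ^ d * E x) →
  ∃ u : ℂ → ℂ, AnalyticAt ℂ u 0 ∧ u 0 = 0 ∧ deriv u 0 = 1 ∧
    ∀ᶠ x in 𝓝[≠] (0 : ℂ), deriv u x ^ 2 * u x ^ d * E 0 = B x

/-- RTX: uniqueness [XP, (4.5)].
PROOF. `y = ζ x (1 + h x)`, `h` analytic, `h 0 = 0`. If `h` is not identically `0` near `0`: `h = e x^j (1 + o(1))`, `j ≥ 1`, `e ≠ 0` (`AnalyticAt.exists_eventuallyEq_pow_smul_nonzero_iff`). `y' = ζ (1 + h + x h') = ζ (1 + (j+1) e x^j + o(x^j))`, `y^d = ζ^d x^d (1 + d e x^j + o(x^j))`, so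
`y'^2 y^d = ζ^{d+2} x^d (1 + (2(j+1) + d) e x^j + o(x^j))`; it is `K x^d`: let `x → 0`: `K = ζ^{d+2}`, then `(2 (j+1) + d) e = 0`, but `2(j+1) + d ≥ 2`. -/
def RTX_stmt : Prop := ∀ (y : ℂ → ℂ) (d : ℤ) (ζ K : ℂ), -2 ≤ d → ζ ≠ 0 → AnalyticAt ℂ y 0 → y 0 = 0 → deriv y 0 = ζ →
  (∀ᶠ x in 𝓝[≠] (0 : ℂ), deriv y x ^ 2 * y x ^ d = K * x ^ d) → ∀ᶠ x in 𝓝 (0 : ℂ), y x = ζ * x

/-- ROT: `ψ` is a rotation in the coordinate `u` (`w` is the inverse of `u`). Uses RTU, RTX.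
PROOF. RTU: `u`; `w` = local inverse of `u` (`w 0 = 0`, `w' 0 = 1`). `y = u ∘ ψ ∘ w`: `y 0 = 0`, `y' 0 = ζ`. With `b x = u'(x)² u(x)^d E 0 = B x`: `ψ^*B = B` reads `(u∘ψ)'^2 (u∘ψ)^d = u'^2 u^d`, in the coordinate `s = u x`: `y'(s)² y(s)^d = s^d`. RTX with `K = 1`: `y s = ζ s`, i.e. `ψ (w s) = w (ζ s)` near `0`
(apply `w` to `u (ψ (w s)) = ζ s`, all points near `0`). Choose `δ`. -/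
def ROT_stmt : Prop := ∀ (B E ψ : ℂ → ℂ) (d : ℤ) (ζ : ℂ), -2 ≤ d → AnalyticAt ℂ E 0 → E 0 ≠ 0 →
  (∀ᶠ x in 𝓝[≠] (0 : ℂ), B x = x ^ d * E x) → AnalyticAt ℂ ψ 0 → ψ 0 = 0 → deriv ψ 0 = ζ → ‖ζ‖ = 1 →
  (∀ᶠ x in 𝓝[≠] (0 : ℂ), deriv ψ x ^ 2 * B (ψ x) = B x) →
  ∃ (w : ℂ → ℂ) (δ : ℝ), 0 < δ ∧ DifferentiableOn ℂ w (ball 0 δ) ∧ w 0 = 0 ∧ deriv w 0 = 1 ∧ InjOn w (ball 0 δ) ∧
    ∀ s ∈ ball (0 : ℂ) δ, ψ (w s) = w (ζ * s)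

/-- RLT: a holomorphic function on a punctured disc with `|1 - τ| = 1 - |τ|` is a constant in `[0,1]`; comparison at `0`.
PROOF. `|1 - τ| + |τ| = 1` means `τ x ∈ [0,1] ⊆ ℝ`. A real valued holomorphic function on a connected open set is constant (open mapping, `AnalyticOnNhd.eq_const_of_re_eq_const`-type). So `deriv ψ x ^2 * B (ψ x) = K⁻¹`.. precisely: `τ (ψ x) · (stuff)`: hypothesis in the form `B x = T · ψ'(x)² B(ψ x)` with the constant `T ∈ [0,1]` near `0`: insert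
`B = x^d E`: `x^d E x = T ψ'(x)² ψ(x)^d E(ψ x)`, divide by `x^d`, `x → 0`: `E 0 = T ζ^{2+d} E 0`, so `|T| = 1`, `T = 1`. -/
def RLT_stmt : Prop := ∀ (B E ψ : ℂ → ℂ) (d : ℤ) (ζ : ℂ) (δ : ℝ), 0 < δ → AnalyticAt ℂ E 0 → E 0 ≠ 0 →
  (∀ᶠ x in 𝓝[≠] (0 : ℂ), B x = x ^ d * E x) → DifferentiableOn ℂ ψ (ball 0 δ) → ψ 0 = 0 → deriv ψ 0 = ζ → ‖ζ‖ = 1 →
  (∀ x ∈ ball (0 : ℂ) δ, x ≠ 0 → DifferentiableAt ℂ B x ∧ B x ≠ 0 ∧ DifferentiableAt ℂ B (ψ x) ∧ B (ψ x) ≠ 0 ∧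
    deriv ψ x ≠ 0 ∧ ‖1 - B x / (deriv ψ x ^ 2 * B (ψ x))‖ = 1 - ‖B x / (deriv ψ x ^ 2 * B (ψ x))‖) →
  ∀ᶠ x in 𝓝[≠] (0 : ℂ), deriv ψ x ^ 2 * B (ψ x) = B x

/-! ## One datum -/

/-- geometry at the base point [XP, (2.5), (2.6)]. -/
structure Dis (D : Dat) (c CK : ℝ) : Prop where
  pos : 0 < c
  le : c ≤ 1 / 4
  K1 : 1 ≤ CK
  rng : ∀ j ≤ D.k, ∀ x ∈ ball (0 : ℂ) c,
    D.zz (D.F j x) ∈ ball (D.b (j : ZMod D.k)) (D.R (j : ZMod D.k) / 4)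
  dj : ∀ j₁ j₂ : ℕ, 1 ≤ j₁ → j₁ ≤ D.k → 1 ≤ j₂ → j₂ ≤ D.k → ∀ x₁ ∈ ball (0 : ℂ) c, ∀ x₂ ∈ ball (0 : ℂ) c,
    D.F j₁ x₁ = D.F j₂ x₂ → j₁ = j₂
  inj : ∀ j ≤ D.k, InjOn (D.F j) (ball 0 (1 / 2))
  ds : ∀ j ≤ D.k, ∀ x ∈ ball (0 : ℂ) (1 / 4), deriv (D.F j) x ≠ 0 ∧
    ‖D.F j x - D.p (j : ZMod D.k)‖ ≤ CK * ‖x‖ * ‖deriv (D.F j) x‖

/-- DIS: Uses `V3.KO0_stmt`, `V3.KO3_stmt`.
PROOF. `D.it j` is injective on `ball (b 0) (R 0/2)` (Good.inj), KO3 (`η = 1/2`, constant `K`): for `‖z - b 0‖ < R 0/4`: `‖it j z - b j‖ ≤ K ‖z - b 0‖ ‖a‖`, `‖a‖ ≤ K ‖(it j)' z‖`, `a = (it j)'(b 0)`; `‖a‖ R 0 ≤ C R j` (Good.trans, `i = 0`). `c = 1/(5 K C)`: `‖it j z - b j‖ ≤ K c R 0 ‖a‖ ≤ R j/5 < R j/4`.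
`dj`: if `j₁ ≠ j₂` in `[1,k]` then `b j₁ ≠ b j₂` and `R j₁, R j₂ ≤ ‖b j₁ - b j₂‖` (sepr), but the common point is within `R j₁/4`, `R j₂/4` of them. `it j (b 0) = b j` (IsCyc.step). `CK = K²`. Derivatives `≠ 0`: KO0. -/
def DIS_stmt : Prop := ∀ C : ℝ, 1 ≤ C → ∃ c CK : ℝ, ∀ (n : ℕ) (A : ℝ) (D : Dat), D.Good n C A → Dis D c CK

/-- the tower `G_q = f^(K-q) ∘ Ψ ∘ χ`. -/
def tw (D : Dat) (Ψ χ : ℂ → ℂ) (q : ℕ) (w : ℂ) : ℂ := D.zz (D.F (D.K - q) (Ψ (D.xx (χ w))))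

/-- the setting: `Ψ` is an inverse branch of `F_K` on `ball x₀ ρ`, `χ` a natural chart. -/
structure St (D : Dat) (c : ℝ) (x₀ : ℂ) (ρ r : ℝ) (χ Ψ : ℂ → ℂ) : Prop where
  s0 : 0 < D.s
  s1 : D.s ≤ 1
  N1 : 1 ≤ D.N
  r0 : 0 < r
  psd : DifferentiableOn ℂ Ψ (ball x₀ ρ)
  psi : ∀ x ∈ ball x₀ ρ, D.F D.K (Ψ x) = x
  psr : ∀ i ≤ D.N, ∀ x ∈ ball x₀ ρ, D.F (i * D.k) (Ψ x) ∈ ball (0 : ℂ) c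
  nat : XPS.IsNat D.PP D.H χ (ball 0 (2 * r))
  val : χ 0 = D.zz x₀
  aff : ∀ w ∈ ball (0 : ℂ) (2 * r), ‖deriv χ w - deriv χ 0‖ ≤ ‖deriv χ 0‖ / 10
  mp : ∀ w ∈ ball (0 : ℂ) (2 * r), D.xx (χ w) ∈ ball x₀ ρ

/-- STS: the tower is a level system.
PROOF. `nat0`: `tw 0 w = zz (F K (Ψ x)) = zz x = χ w`, `x = xx (χ w)`. `rel`: `f (it (K-q-1) z) = it (K-q) z`; `K - q - 1 = i k + j`, `j < k`, `i < N`: `it (j+1)` is injective on `zz '' ball 0 (1/2)` near `zz (F (i k) (Ψ x))` (psr, Dis.inj, `c ≤ 1/4`), so its derivative does not vanish (Dis.ds) and by the chain rule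
`fd f (it j (..)) ≠ 0`. `av` for `nat0` from `St.nat`. Injectivity: the `q`-th iterate maps `tw q w` to `χ w`, `χ` is injective (nearly affine). Range: `K - q = i k + j`, `1 ≤ j ≤ k`, `i < N` (`q < K`): in `ball (b j) (R j/4)`, contained in `ball 0 rad` (Good.invi, `A ≥ 1`). Multiplicity: `j` is determined by the point (Dis.dj), so at most `N` values of `q`. -/
def STS_stmt : Prop := ∀ (n : ℕ) (C A c CK : ℝ) (D : Dat), D.Good n C A → Dis D c CK →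
  ∀ (x₀ : ℂ) (ρ r : ℝ) (χ Ψ : ℂ → ℂ), St D c x₀ ρ r χ Ψ →
  XPS.LevSys D.f D.PP D.H (tw D Ψ χ) (ball 0 (2 * r)) D.K ∧ EqOn (tw D Ψ χ 0) χ (ball 0 (2 * r)) ∧
  (∀ q ≤ D.K, InjOn (tw D Ψ χ q) (ball 0 (2 * r))) ∧
  (∀ q < D.K, MapsTo (tw D Ψ χ q) (ball 0 (2 * r)) (ball 0 D.rad)) ∧
  ∀ z : ℂ, ∀ S : Finset ℕ, (∀ q ∈ S, q < D.K ∧ z ∈ tw D Ψ χ q '' ball 0 (2 * r)) → S.card ≤ D.N

/-- ENS: the energy inequality for the normalised differential `H = s H0`, `0 < s ≤ 1`.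
PROOF. `TT f (s H0) = s TT f H0`, so `Df` and `‖er‖` scale by `s`: `ofReal (s a) ≤ ofReal a` for `a ≥ 0` (`XPS.MIX_stmt`: `0 ≤ Df`). `AD f PP H`: from `Good.eng.ad`. -/
def ENS_stmt : Prop := ∀ (n : ℕ) (C A : ℝ) (D : Dat), D.Good n C A → 0 < D.s → D.s ≤ 1 →
  Eng n D.f D.PP D.H D.rad D.E ∧
  ∫⁻ z in ball (0 : ℂ) D.rad, ENNReal.ofReal (XPS.Df D.f D.H z + 2 * ‖XPS.er D.f D.H z‖) ≤
    ENNReal.ofReal (D.s * D.E)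

/-- STC: the start for one datum [XP, (4.1), (4.2)]. Uses STS, ENS, `XPS.LVG_stmt`, `XPS.MAX_stmt`, `XPS.LEAX_stmt`, `XPS.MIX_stmt`.
PROOF. `G = tw D Ψ χ`. LVG: `∑ lev ≤ ∑_{q<K} dens (G q) + ‖τ_0‖ - ‖τ_K‖`, `τ_0 = 1`. MAX (STS, multiplicity `N`): `∑_{q<K} ∫⁻_{ball 0 (2r)} dens ≤ N E`. For `w ∈ ball 0 r`: `lev q` is the norm of a function holomorphic on `ball w r ⊆ ball 0 (2r)` (LEAX), so `lev q w ≤ (1/(π r²)) ∫_{ball w r} lev q` (mean value, e.g. `MPS.HSM`-like or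
`norm` of the area mean value); sum: `≤ τ₀ + N E/(π r²)`. Second claim: `‖1 - τ_K‖ ≤ ∑ lev` (telescoping), integrate over `ball 0 (2r)`. -/
def STC_stmt : Prop := ∀ (n : ℕ) (C A c CK : ℝ) (D : Dat), D.Good n C A → Dis D c CK →
  ∀ (x₀ : ℂ) (ρ r : ℝ) (χ Ψ : ℂ → ℂ), St D c x₀ ρ r χ Ψ →
  (∀ τ₀ : ℝ, (∀ w ∈ ball (0 : ℂ) (2 * r), 1 - ‖XPS.tau D.H (tw D Ψ χ) D.K w‖ ≤ τ₀) →
    ∀ w ∈ ball (0 : ℂ) r, ∑ q ∈ Finset.Icc 1 D.K, XPS.lev D.H (tw D Ψ χ) q w ≤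
      τ₀ + D.N * D.E / (Real.pi * r ^ 2)) ∧
  ∫⁻ w in ball (0 : ℂ) (2 * r), ENNReal.ofReal (‖1 - XPS.tau D.H (tw D Ψ χ) D.K w‖ -
    (1 - ‖XPS.tau D.H (tw D Ψ χ) D.K w‖)) ≤ ENNReal.ofReal (D.N * D.E)

/-- TAX: `τ_K` in the x-plane.
PROOF. `tw K w = zz (Ψ x)`, `x = xx (χ w)` (`F 0 = id`); chain rule: its derivative is `sg Ψ'(x) χ'(w)/sg = Ψ'(x) χ'(w)`. `H (zz (Ψ x)) = B (Ψ x)/sg²`, `χ'(w)² H(χ w) = 1` and `H (χ w) = B x/sg²`. -/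
def TAX_stmt : Prop := ∀ (n : ℕ) (C A c : ℝ) (D : Dat), D.Good n C A →
  ∀ (x₀ : ℂ) (ρ r : ℝ) (χ Ψ : ℂ → ℂ), St D c x₀ ρ r χ Ψ → ∀ w ∈ ball (0 : ℂ) (2 * r),
  XPS.tau D.H (tw D Ψ χ) D.K w =
    deriv Ψ (D.xx (χ w)) ^ 2 * D.B (Ψ (D.xx (χ w))) / D.B (D.xx (χ w))

/-- KCB: the bound (kc) [XP, (4.3)]. Uses STS.
PROOF. `K - q = i k + j`, `j < k`, `i ≤ N` (`i = (K-q)/k`); `y = F (i k) (Ψ x₀) ∈ ball 0 c`. `tw q 0 = zz (F j y)`, `b (-q) = b j = zz (p j)` (`k` divides `K`, so `-q = K - q = j` in `ZMod k`), so `‖tw q 0 - b (-q)‖ = ‖sg‖‖F j y - p j‖ ≤ ‖sg‖ CK c ‖(F j)' y‖` (Dis.ds). Chain rule: `deriv (tw q) 0 = sg (F j)'(y) (F (ik) ∘ Ψ)'(x₀) χ'(0)/sg`,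
so `‖deriv (tw q) 0‖ ≥ ‖(F j)' y‖ m₁ ‖χ' 0‖ ≥ ‖(F j)' y‖ m₁ ‖sg‖/C₂`. -/
def KCB_stmt : Prop := ∀ (n : ℕ) (C A c CK : ℝ) (D : Dat), D.Good n C A → Dis D c CK →
  ∀ (x₀ : ℂ) (ρ r : ℝ) (χ Ψ : ℂ → ℂ), St D c x₀ ρ r χ Ψ → ∀ m₁ C₂ : ℝ, 0 < m₁ → 0 < C₂ → 0 < ρ →
  (∀ i ≤ D.N, m₁ ≤ ‖deriv (fun x => D.F (i * D.k) (Ψ x)) x₀‖) → ‖D.sg‖ ≤ C₂ * ‖deriv χ 0‖ →
  ∀ q, 1 ≤ q → q ≤ D.K →
    ‖tw D Ψ χ q 0 - D.b (-(q : ZMod D.k))‖ ≤ CK * c * C₂ / m₁ * ‖deriv (tw D Ψ χ q) 0‖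

/-- PHC: the displacement in the chart.
PROOF. `χ` is nearly affine: `9/10 ‖χ'0‖‖w - w'‖ ≤ ‖χ w - χ w'‖ ≤ 11/10 ‖χ'0‖‖w-w'‖`, and `χ '' ball 0 (2r) ⊇ ball (χ 0) (9/10 · 2r ‖χ' 0‖)` (as V3S.CAF, helper8/V3/CAF.lean, whose proof only uses `aff`). For `w ∈ ball 0 r`, `z = zz (Ψ (xx (χ w)))`: `‖z - χ w‖ ≤ ‖sg‖ ε₁ ≤ C₂ ε₁ ‖χ' 0‖`, so `‖z - χ 0‖ ≤ (11/10 r + C₂ ε₁)‖χ'0‖ < 9/5 r ‖χ'0‖`: `Φ w = χ⁻¹ z`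
(holomorphic: inverse of an injective holomorphic function), `‖Φ w - w‖ ≤ (10/9) C₂ ε₁`. -/
def PHC_stmt : Prop := ∀ (n : ℕ) (C A c : ℝ) (D : Dat), D.Good n C A →
  ∀ (x₀ : ℂ) (ρ r : ℝ) (χ Ψ : ℂ → ℂ), St D c x₀ ρ r χ Ψ → ∀ C₂ ε₁ : ℝ, 0 < C₂ → 0 ≤ ε₁ →
  ‖D.sg‖ ≤ C₂ * ‖deriv χ 0‖ → C₂ * ε₁ ≤ r / 10 → (∀ x ∈ ball x₀ ρ, ‖Ψ x - x‖ ≤ ε₁) →
  ∃ Φ : ℂ → ℂ, DifferentiableOn ℂ Φ (ball 0 r) ∧ ∀ w ∈ ball (0 : ℂ) r, Φ w ∈ ball (0 : ℂ) (2 * r) ∧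
    ‖Φ w - w‖ ≤ 2 * C₂ * ε₁ ∧ χ (Φ w) = tw D Ψ χ D.K w

/-- CTS: the chain property at `x₀` for one datum. Uses STS, STC, KCB, PHC, TAX.
PROOF. Restrict STS to `ball 0 r`; STC with `τ₀` (TAX: `1 - ‖τ_K‖ ≤ ‖τ_K - 1‖ ≤ τ₀`); `C' = max (C₃) (max (2 C₂ C₃) (2 CK c C₂)) + 1` (`m₁ = 1/2`). -/
def CTS_stmt : Prop := ∀ (c CK C₂ C₃ r : ℝ), 0 < C₂ → 0 < C₃ → 0 < r → ∃ C' > (0 : ℝ), ∀ (n : ℕ) (C A : ℝ) (D : Dat),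
  D.Good n C A → Dis D c CK → ∀ (x₀ : ℂ) (ρ τ₀ ε₁ : ℝ) (χ Ψ : ℂ → ℂ), 0 < ρ → St D c x₀ ρ r χ Ψ →
  ‖D.sg‖ ≤ C₂ * ‖deriv χ 0‖ → (∀ i ≤ D.N, 1 / 2 ≤ ‖deriv (fun x => D.F (i * D.k) (Ψ x)) x₀‖) →
  (∀ x ∈ ball x₀ ρ, ‖Ψ x - x‖ ≤ ε₁) → C₂ * ε₁ ≤ r / 10 → ε₁ ≤ C₃ * D.de →
  (∀ x ∈ ball x₀ ρ, ‖deriv Ψ x ^ 2 * D.B (Ψ x) / D.B x - 1‖ ≤ τ₀) →
  τ₀ + D.N * D.E / (Real.pi * r ^ 2) ≤ C₃ * D.om → ∃ Φ : ℂ → ℂ, Ctl D x₀ r C' χ (tw D Ψ χ) Φ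

/-! ## Sequences -/

/-- NPC: no poles on compact subsets of the complement of `Pin`.
PROOF. Otherwise, along `UF`, there are `x m ∈ K` with `zz (x m) ∈ PP`. If `zz (x m) = b (l m)` (`UF`-a.a. `m`) then `p (l m) = x m` tends to some `x ∈ K` (`IsCompact`, ultrafilter), so `x ∈ Pin`: contradiction. If `zz (x m) ∈ P`: `‖x m‖ ≤ ρ < A m` eventually, so `zz (x m) ∈ ball (b 0) (A R 0)` is not in `P` (Good.invi). -/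
def NPC_stmt : Prop := ∀ (n : ℕ) (C : ℝ) (D : ℕ → Dat), Seq n C D → ∀ K : Set ℂ, IsCompact K → K ⊆ (Pin D)ᶜ →
  ∀ᶠ m in UF, ∀ x ∈ K, (D m).zz x ∉ (D m).PP

/-- CHX: natural charts at a regular point. Uses `V3S.NCH_stmt`, NPC.
PROOF. `Bin` is continuous and `≠ 0` near `x₀` (`LB.diff`; `Pin D` is closed: it is the complement of an open set, see the definition), choose `ρ' ≤ ρ` with `closedBall x₀ (2ρ') ⊆ Reg`, `‖Bin z/Bin x₀ - 1‖ ≤ 1/100` there; by `LB.conv` eventually `‖B z/B x₀ - 1‖ ≤ 1/20` on `ball x₀ ρ'`; NCH for `(D m).B` at `x₀` (differentiable off `PP`, NPC):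
chart in the x-plane on `ball 0 (9ρ'√‖B x₀‖/10)`; `χ = zz ∘ chart`: `deriv = sg · ..`, `χ'² H(χ) = 1`. `2 r ≤ 9ρ'√(‖Bin x₀‖/2)/10`. `‖χ' 0‖ = ‖sg‖/√‖B x₀‖`. -/
def CHX_stmt : Prop := ∀ (n : ℕ) (C : ℝ) (D : ℕ → Dat), Seq n C D → LB D → ∀ x₀ ∈ Reg D, ∀ ρ > (0 : ℝ),
  ∃ r > (0 : ℝ), ∃ C₂ > (0 : ℝ), ∀ᶠ m in UF, ∃ χ : ℂ → ℂ, XPS.IsNat (D m).PP (D m).H χ (ball 0 (2 * r)) ∧
    χ 0 = (D m).zz x₀ ∧ (∀ w ∈ ball (0 : ℂ) (2 * r), ‖deriv χ w - deriv χ 0‖ ≤ ‖deriv χ 0‖ / 10) ∧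
    (∀ w ∈ ball (0 : ℂ) (2 * r), (D m).xx (χ w) ∈ ball x₀ ρ) ∧ ‖(D m).sg‖ ≤ C₂ * ‖deriv χ 0‖

/-- BCV: bounds of `B` near a regular point: convergence with derivatives.
PROOF. `V3.TDE_stmt` (or Cauchy's estimates) and NPC; `Reg D` is open. -/
def BCV_stmt : Prop := ∀ (n : ℕ) (C : ℝ) (D : ℕ → Dat), Seq n C D → LB D → IsOpen (Reg D) ∧ IsClosed (Pin D) ∧
  ∀ K : Set ℂ, IsCompact K → K ⊆ Reg D → ∃ κ > (0 : ℝ), ∃ M : ℝ, ∀ᶠ m in UF, ∀ x ∈ K,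
    DifferentiableAt ℂ (D m).B x ∧ κ ≤ ‖(D m).B x‖ ∧ ‖(D m).B x‖ ≤ M ∧ ‖deriv (D m).B x‖ ≤ M

/-- STA: the start in case A [XP, (4.4)]. Uses DIS, CTS, CHX, BCV, INVG.
PROOF. DIS: `c, CK`. `x₀ ∈ Reg`, `0 < ‖x₀‖ < c/2` (`LB.acc` at `0`), `ρ` with `closedBall x₀ (2ρ) ⊆ Reg ∩ ball 0 c`. CHX: `r, C₂, χ`. `K = k` (`N = 1`). `F k y - y = lam v y`, `‖v y‖ ≤ 11/10 ‖y‖` (GA.near): `‖F k y - y‖ ≤ 2‖lam‖‖y‖ ≤ ‖y‖/50` eventually: INVG: `Ψ` on `ball 0 (1/2)`,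
`‖Ψ x - x‖ ≤ 2‖lam‖‖Ψ x‖ ≤ 2‖lam‖`. `psr`: `i = 0`: `Ψ x ∈ ball 0 c`, `i = 1`: `F k (Ψ x) = x`. Derivatives at `x₀`: `‖Ψ' - 1‖ ≤ 2‖lam‖/ρ` on `ball x₀ ρ` (Cauchy), `(F k ∘ Ψ)' = 1`. `‖Ψ'^2 B(Ψ x)/B x - 1‖ ≤ C‖lam‖` by BCV on `closedBall x₀ (3ρ/2)`. `E ≤ C'‖lam‖`, `om = de = C'‖lam‖`. CTS. -/
def STA_stmt : Prop := ∀ (n : ℕ) (C C' : ℝ) (D : ℕ → Dat), 1 ≤ C → Seq n C D → SeqA C' D → ParA C' D → Par D → LB D →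
  ∃ x₀ ∈ Reg D, CTL D x₀

/-- PSI: the limit of `F k` in case B. Uses `V3.TMO_stmt`, `V3.TDE_stmt`.
PROOF. `‖F k x‖ ≤ 3‖x‖` on `ball 0 1` (GB.near, `rho2`); TMO; `(F k)' 0 = rho` (the derivative of the `k`-th iterate at `b 0` is the product of `fd f (b i)`: V3S.BA1, or XPD.DIT) tends to `ζ`. -/
def PSI_stmt : Prop := ∀ (n : ℕ) (C η : ℝ) (ζ : ℂ) (D : ℕ → Dat), Seq n C D → SeqB η ζ D →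
  ∃ ψ : ℂ → ℂ, DifferentiableOn ℂ ψ (ball 0 1) ∧
    TendstoLocallyUniformlyOn (fun m => (D m).F (D m).k) ψ UF (ball 0 1) ∧ ψ 0 = 0 ∧ deriv ψ 0 = ζ ∧
    ∀ x ∈ ball (0 : ℂ) 1, ‖ψ x - ζ * x‖ ≤ η * ‖x‖

/-- INVB: `ψ^* Bin = Bin` [XP, (4.5)]. Uses DIS, STC, TAX, CHX, BCV, INVG, RLT, NPC.
PROOF. Choose `δ < c/4` with `ball 0 δ \ {0} ⊆ Reg` (LB.acc). Let `y₀ ∈ ball 0 (δ/4)`, `y₀ ≠ 0`, `x₀ = ψ y₀`; `0 < ‖x₀‖ < δ` (`‖x₀ - ζ y₀‖ ≤ ‖y₀‖/100`), both in `Reg`. Data `D₁ m = (D m).par (D m).s 1 1 1` (`N = 1`, `K = k`; `Bin`, `Pin` unchanged). Inverse: `G y = F k y/ρ_m` satisfies `‖G y - y‖ ≤ η‖y‖/‖ρ‖ ≤ ‖y‖/50`: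
INVG: `Ψ_m x = Ψ₀ (x/ρ_m)`, `F k (Ψ_m x) = x`, `‖Ψ_m x‖ ≤ 26/25 ‖x‖`. `Ψ_m → Ψ = ` a local inverse of `ψ` at `x₀` with `Ψ x₀ = y₀`: (`F k` is injective on `ball 0 (1/2)` (Dis.inj), `F k (Ψ_m x) = x`, `F k → ψ`; a `UF`-limit of `Ψ_m x₀` is a solution `y` of `ψ y = x₀`, `ψ` is injective near: `‖ψ' - ζ‖ ≤ 2η`; so it is `y₀`),
convergence uniform near `x₀` with derivatives (V3.TMO, TDE). TAX: `τ_m(x) = Ψ_m'(x)² B(Ψ_m x)/B x → τ(x) = Ψ'(x)² Bin(Ψ x)/Bin x` uniformly near `x₀`. STC second claim: `∫_{ball 0 (2r)} φ(τ_m(xx (χ_m w))) ≤ E → 0`, `φ(τ) = |1-τ| - (1 - |τ|) ≥ 0`. If `φ(τ(x₀)) > 0` then `φ(τ_m(x)) ≥ κ > 0` for `x` in a fixed ball about `x₀`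
eventually, and `xx (χ_m w)` is in it for `‖w‖ < r'` (charts: `‖χ_m w - χ_m 0‖ ≤ 11/10 ‖χ_m' 0‖‖w‖`, `‖χ_m' 0‖ ≤ C‖sg‖` because `χ_m'(0)² B x₀ = sg²`, BCV): contradiction. So `φ(τ(x₀)) = 0`. In terms of `y₀`: `Ψ'(x₀) = 1/ψ'(y₀)`, `τ = Bin y₀/(ψ'(y₀)² Bin(ψ y₀))`. RLT on `ball 0 (δ/4)`. -/
def INVB_stmt : Prop := ∀ (n : ℕ) (C η : ℝ) (ζ : ℂ) (D : ℕ → Dat) (ψ : ℂ → ℂ), 1 ≤ C → Seq n C D → SeqB η ζ D →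
  (∀ m, 0 < (D m).s ∧ (D m).s ≤ 1) → LB D → DifferentiableOn ℂ ψ (ball 0 1) →
  TendstoLocallyUniformlyOn (fun m => (D m).F (D m).k) ψ UF (ball 0 1) → ψ 0 = 0 → deriv ψ 0 = ζ →
  (∀ x ∈ ball (0 : ℂ) 1, ‖ψ x - ζ * x‖ ≤ η * ‖x‖) →
  ∀ᶠ x in 𝓝[≠] (0 : ℂ), deriv ψ x ^ 2 * Bin D (ψ x) = Bin D x

/-- STN: inverse branches of `F (N k)` for fixed `N` [XP, (4.5)]. Uses DIS, PSI, INVB, ROT, INVL, BCV.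
PROOF. PSI, INVB, ROT (`LB.zero`): `w, δ`. `δ₁ ≤ δ/4` with `‖w' - 1‖ ≤ 1/10` and `‖w s‖ < c/4` on `ball 0 (2δ₁)`, `w '' ball 0 (2δ₁) \ {0} ⊆ Reg`, and `b s = w'(s)² Bin(w s)` satisfies `ζ² b(ζ s) = b s` on `ball 0 (2 δ₁) \ {0}` (INVB and `ψ (w s) = w (ζ s)`). `x₀ = w s₀`, `‖s₀‖ = δ₁/2`, `ρ` small with `ball x₀ (4ρ) ⊆ w '' ball s₀ (δ₁/4)`
(independent of `N`). Fix `N`. `ψ^i (w s) = w (ζ^i s)` (induction), so `F (i k) (w s) → w (ζ^i s)` uniformly on `closedBall 0 δ₁` (induction on `i ≤ N`: composition of locally uniform limits; `F ((i+1) k) = F k ∘ F (i k)`). `J x = w (ζ^{-N} w⁻¹ x)` on `ball x₀ (4ρ)`; `G_m = F (N k) ∘ J` tends to the identity uniformly on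
`ball x₀ (3ρ)`. INVL (radius `3ρ/2`): `Ψ̃_m`, `Ψ_m = J ∘ Ψ̃_m`, `F (N k) (Ψ_m x) = x`, `Ψ_m → J` uniformly on `ball x₀ (3ρ/2)`, derivatives on `ball x₀ ρ`. `‖J x - x‖ = ‖w(ζ^{-N} s) - w s‖ ≤ 11/10 ‖ζ^{-N} - 1‖ ‖s‖ ≤ 2‖ζ^N - 1‖`. `F (i k) (Ψ_m x) → w (ζ^{i-N} w⁻¹ x) ∈ ball 0 (c/4)`, with derivatives of modulus `≥ 9/11`.
`J'² Bin(J)/Bin = 1` from `b(ζ^{-N}s) ζ^{-2N} = b s`; BCV. -/
def STN_stmt : Prop := ∀ (n : ℕ) (C η : ℝ) (ζ : ℂ) (D : ℕ → Dat) (c CK : ℝ), 1 ≤ C → Seq n C D → SeqB η ζ D →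
  (∀ m, 0 < (D m).s ∧ (D m).s ≤ 1) → LB D → (∀ m, Dis (D m) c CK) →
  ∃ x₀ ∈ Reg D, ∃ ρ > (0 : ℝ), ∀ N : ℕ, 1 ≤ N → ∀ ε > (0 : ℝ), ∀ᶠ m in UF, ∃ Ψ : ℂ → ℂ,
    DifferentiableOn ℂ Ψ (ball x₀ ρ) ∧
    (∀ x ∈ ball x₀ ρ, (D m).F (N * (D m).k) (Ψ x) = x ∧ ‖Ψ x - x‖ ≤ 2 * ‖ζ ^ N - 1‖ + ε ∧
      (∀ i ≤ N, (D m).F (i * (D m).k) (Ψ x) ∈ ball (0 : ℂ) c) ∧
      ‖deriv Ψ x ^ 2 * (D m).B (Ψ x) / (D m).B x - 1‖ ≤ ε) ∧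
    ∀ i ≤ N, 1 / 2 ≤ ‖deriv (fun x => (D m).F (i * (D m).k) (Ψ x)) x₀‖

/-- STB: the start in case B, with the choice of the parameters [XP, (4.5), diagonal]. Uses DIS, STN, CHX, CTS, DIA, DIR.
PROOF. DIS, STN: `x₀, ρ`; CHX: `r, C₂`, charts `χ_m` (`D.H`, `D.PP`, `Bin`, `Pin`, `Reg`, `LB`, `Good` do not depend on `N, om, de`). `Nl l` from DIR with `ε = 1/(l+1)`, `oml l = 1/((l+1) (Nl l)^3)`, `del l = 3/(l+1)`. `S l m`: the chart exists, the conclusion of STN for `N = Nl l`, `ε = oml l`, and `Nl l * E ≤ oml l`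
(eventually, as `E → 0`, `UF_le`). DIA: `L`. `N m = Nl (L m)` etc. `Par`: `N³ om = 1/(L m + 1) → 0`, `de → 0`, `om ≤ de`. CTS with `ε₁ = 2‖ζ^N - 1‖ + oml ≤ 3/(l+1) = de`, `τ₀ = oml`, `C₃ = 1 + 1/(π r²)`; `C₂ ε₁ ≤ r/10` eventually. -/
def STB_stmt : Prop := ∀ (n : ℕ) (C η : ℝ) (ζ : ℂ) (D : ℕ → Dat), 1 ≤ C → Seq n C D → SeqB η ζ D →
  (∀ m, 0 < (D m).s ∧ (D m).s ≤ 1) → LB D →
  ∃ (N : ℕ → ℕ) (om de : ℕ → ℝ), Par (fun m => (D m).par (D m).s (N m) (om m) (de m)) ∧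
    ∃ x₀ ∈ Reg (fun m => (D m).par (D m).s (N m) (om m) (de m)),
      CTL (fun m => (D m).par (D m).s (N m) (om m) (de m)) x₀

end XPT
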