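import Pool.Agent.helper60.XP.SpecE

/-!
# Project xp: C2V (the affine case)
-/

set_option autoImplicit false

open Complex Metric Set Filter Topology MeasureTheory
open V3 (En ZL)

noncomputable section

namespace XPE

theorem C2V : C2V_stmt := by
  intro v a₀ a₁ τ hv hne h0 h1 hode
  by_cases ha : a₁ = 0
  · have ha0 : a₀ ≠ 0 := by
      rcases hne with h | h
      · exact h
      · exact absurd ha h
    have h2 : ∀ x, deriv v x = τ / 2 := by
      intro x
      have h3 := hode x
      rw [ha] at h3
      have h4 : a₀ * (2 * deriv v x) = a₀ * τ := by linear_combination h3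
      have h5 := mul_left_cancel₀ ha0 h4
      linear_combination h5 / 2
    have h3 : ∀ x, deriv v x = 1 := fun x => by rw [h2 x, ← h2 0, h1]
    have h4 : ∀ x, deriv (fun y => v y - y) x = 0 := by
      intro x
      have h5 : HasDerivAt (fun y => v y - y) (deriv v x - 1) x :=
        (hv x).hasDerivAt.sub (hasDerivAt_id x)
      rw [h5.deriv, h3 x, sub_self]
    intro x
    have h5 := is_const_of_deriv_eq_zero (hv.sub differentiable_id) h4 x 0
    simp only [Pi.sub_apply, id_eq, h0, sub_zero] at h5
    exact sub_eq_zero.mp h5
  · set x₁ : ℂ := -a₀ / a₁ with hx₁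
    have hx1 : a₁ * x₁ = -a₀ := by
      rw [hx₁]
      field_simp
    have hode2 : ∀ x, v x + 2 * deriv v x * (x - x₁) = τ * (x - x₁) := by
      intro x
      have h3 := hode x
      have h4 : a₁ * (v x + 2 * deriv v x * (x - x₁)) = a₁ * (τ * (x - x₁)) := by
        linear_combination h3 + (τ - 2 * deriv v x) * hx1
      exact mul_left_cancel₀ ha h4
    set w : ℂ → ℂ := fun x => v x - τ / 3 * (x - x₁) with hw
    have hwd : ∀ x, HasDerivAt w (deriv v x - τ / 3) x := by
      intro x
      have h3 : HasDerivAt (fun x : ℂ => τ / 3 * (x - x₁)) (τ / 3) x := by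
        simpa using ((hasDerivAt_id x).sub_const x₁).const_mul (τ / 3)
      exact (hv x).hasDerivAt.sub h3
    have hwe : ∀ x, w x + 2 * (deriv v x - τ / 3) * (x - x₁) = 0 := by
      intro x
      have h3 := hode2 x
      simp only [hw]
      linear_combination h3
    have hk : ∀ x, deriv (fun x => (x - x₁) * w x ^ 2) x = 0 := by
      intro x
      have h3 : HasDerivAt (fun x : ℂ => x - x₁) 1 x := (hasDerivAt_id x).sub_const x₁
      have h4 := h3.mul ((hwd x).pow 2)
      have h5 : deriv (fun x => (x - x₁) * w x ^ 2) x =
          1 * w x ^ 2 + (x - x₁) * (((2 : ℕ) : ℂ) * w x ^ (2 - 1) * (deriv v x - τ / 3)) := h4.deriv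
      rw [h5]
      have h6 := hwe x
      simp
      linear_combination w x * h6
    have hkd : Differentiable ℂ (fun x => (x - x₁) * w x ^ 2) := by
      intro x
      exact (((hasDerivAt_id x).sub_const x₁).mul ((hwd x).pow 2)).differentiableAt
    have hz : ∀ x, (x - x₁) * w x ^ 2 = 0 := by
      intro x
      have h3 := is_const_of_deriv_eq_zero hkd hk x x₁
      simpa using h3
    have hw0 : ∀ x, x ≠ x₁ → w x = 0 := by
      intro x hx
      have h3 := hz x
      rcases mul_eq_zero.mp h3 with h | h
      · exact absurd (sub_eq_zero.mp h) hx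
      · exact pow_eq_zero_iff (two_ne_zero) |>.mp h
    have hwc : Continuous w := by
      have : Differentiable ℂ w := fun x => (hwd x).differentiableAt
      exact this.continuous
    have hw1 : ∀ x, w x = 0 := by
      have h3 : w = fun _ => 0 := by
        have hdense : Dense ({x₁}ᶜ : Set ℂ) := dense_compl_singleton x₁
        exact Continuous.ext_on hdense hwc continuous_const (fun x hx => hw0 x hx)
      intro x
      rw [h3]
    have hv1 : ∀ x, v x = τ / 3 * (x - x₁) := by
      intro x
      have h3 := hw1 x
      simp only [hw] at h3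
      exact sub_eq_zero.mp h3
    have hτ : τ / 3 = 1 := by
      have h3 := (hwd 0).deriv
      have h4 : deriv w 0 = 0 := by
        have h5 : w = fun _ => 0 := funext hw1
        rw [h5]
        simp
      rw [h4, h1] at h3
      exact (sub_eq_zero.mp h3.symm).symm
    have hx10 : x₁ = 0 := by
      have h3 := hv1 0
      rw [h0, hτ] at h3
      simpa using h3.symm
    intro x
    rw [hv1 x, hτ, hx10]
    ring

end XPE
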