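import Pool.Agent.helper38.XP.XCB
import Pool.Agent.helper54.XP.SpecG

/-!
# xp: XCA, case `ζ = 1` is impossible
-/

set_option autoImplicit false

open Complex Metric Set Filter Topology MeasureTheory
open V3S (UF)
open XP

noncomputable section

namespace XPX

theorem XCA_seqA (C' : ℝ) (D : ℕ → Dat) (s : ℕ → ℝ) (N : ℕ → ℕ) (om de : ℕ → ℝ)
    (h : SeqA C' D) : SeqA C' (fun m => (D m).par (s m) (N m) (om m) (de m)) where
  ga := fun m => ⟨(h.ga m).hrho, (h.ga m).lam0, (h.ga m).near, (h.ga m).far⟩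
  lim := h.lim
  C1 := h.C1
  El := h.El

theorem XCA_norm (C' : ℝ) (D : ℕ → Dat) (h : SeqA C' D) (m : ℕ) : 0 < ‖(D m).lam‖ := by
  have h1 := (h.ga m).lam0
  refine norm_pos_iff.mpr (fun h0 => ?_)
  rw [h0] at h1
  simp at h1

theorem XCA_par (C' : ℝ) (D : ℕ → Dat) (s : ℕ → ℝ) (h : SeqA C' D)
    (hs : ∀ m, 0 < s m ∧ s m ≤ 1) :
    Par (fun m => (D m).par (s m) 1 (C' * ‖(D m).lam‖) (C' * ‖(D m).lam‖)) where
  s0 := fun m => (hs m).1
  s1 := fun m => (hs m).2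
  N1 := fun m => le_refl 1
  om0 := fun m => mul_pos (lt_of_lt_of_le one_pos h.C1) (XCA_norm C' D h m)
  eo := by
    refine Eventually.of_forall (fun m => ?_)
    have := h.El m
    simp only [Dat.par, Nat.cast_one, one_mul]
    exact this
  od := Eventually.of_forall (fun m => le_refl _)
  om1 := by
    have h1 : Tendsto (fun m => (D m).lam) UF (𝓝 0) := h.lim.mono_left V3S.UF_le
    have h2 : Tendsto (fun m => C' * ‖(D m).lam‖) UF (𝓝 (C' * ‖(0 : ℂ)‖)) := (h1.norm).const_mul C'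
    simp only [norm_zero, mul_zero] at h2
    simpa only [Dat.par, Nat.cast_one, one_pow, one_mul] using h2
  de1 := by
    have h1 : Tendsto (fun m => (D m).lam) UF (𝓝 0) := h.lim.mono_left V3S.UF_le
    have h2 : Tendsto (fun m => C' * ‖(D m).lam‖) UF (𝓝 (C' * ‖(0 : ℂ)‖)) := (h1.norm).const_mul C'
    simp only [norm_zero, mul_zero] at h2
    simpa only [Dat.par] using h2

theorem XCA_parA (C' : ℝ) (D : ℕ → Dat) (s : ℕ → ℝ) :
    ParA C' (fun m => (D m).par (s m) 1 (C' * ‖(D m).lam‖) (C' * ‖(D m).lam‖)) where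
  N1 := fun _ => rfl
  om := fun _ => rfl
  de := fun _ => rfl

theorem XCA (hNRM : NRM_stmt) (hSTA : XPT.STA_stmt) (hGF1 : XPG.GF1_stmt) (hGF2 : XPG.GF2_stmt) :
    XCA_stmt := by
  intro n C C' D hC hS hA
  have build : ∀ s : ℕ → ℝ, (∀ m, 0 < s m ∧ s m ≤ 1) →
      LB (fun m => (D m).par (s m) 1 (C' * ‖(D m).lam‖) (C' * ‖(D m).lam‖)) →
      XPG.HG n C C' C' (fun m => (D m).par (s m) 1 (C' * ‖(D m).lam‖) (C' * ‖(D m).lam‖)) := by
    intro s hs hLB
    have h1 := XCB_seq n C D s (fun _ => 1) (fun m => C' * ‖(D m).lam‖)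
      (fun m => C' * ‖(D m).lam‖) hS
    have h2 := XCA_seqA C' D s (fun _ => 1) (fun m => C' * ‖(D m).lam‖)
      (fun m => C' * ‖(D m).lam‖) hA
    have h3 := XCA_par C' D s hA hs
    have h4 := XCA_parA C' D s
    exact ⟨⟨h1, h3, hLB⟩, h2, h4, hSTA n C C' _ hC h1 h2 h4 h3 hLB⟩
  rcases hNRM n C D hS with h | h
  · obtain ⟨hLB, g, hCI⟩ := h
      (fun m => (D m).par ((fun _ => (1 : ℝ)) m) 1 (C' * ‖(D m).lam‖) (C' * ‖(D m).lam‖))
      (fun _ => rfl)
    exact hGF1 n C C' C' _ g (build (fun _ => 1) (fun _ => ⟨one_pos, le_refl 1⟩) hLB) hCI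
  · obtain ⟨hLB, a₀, a₁, hCII⟩ := h
      (fun m => (D m).par ((fun m => (nu (D m))⁻¹) m) 1 (C' * ‖(D m).lam‖) (C' * ‖(D m).lam‖))
      (fun _ => rfl)
    refine hGF2 n C C' C' _ a₀ a₁ (build (fun m => (nu (D m))⁻¹) (fun m => ?_) hLB) hCII
    have h1 : 1 ≤ nu (D m) := by
      unfold nu
      have := norm_nonneg ((D m).Bb (1 / 2))
      have := norm_nonneg ((D m).Bb (-1 / 2))
      linarith
    exact ⟨inv_pos.mpr (by linarith), inv_le_one_of_one_le₀ h1⟩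

end XPX
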