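import Pool.Agent.helper60.XP.SpecX

/-!
# Project xp: XMM, the abstract main theorem
-/

set_option autoImplicit false

open Complex Metric Set Filter Topology MeasureTheory
open V3S (UF)
open XP

noncomputable section

namespace XPX

/-- a counterexample to `XM_stmt` for `n, C, ε`. -/
structure XMM_CE (n : ℕ) (C ε : ℝ) where
  k : ℕ
  nz : NeZero k
  f : Polynomial ℂ
  b : ZMod k → ℂ
  g : ZMod k → ℂ
  r : ℂ → ℂ
  P : Set ℂ
  rad : ℝ
  hk : 2 ≤ k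
  hdeg : f.natDegree = n
  cyc : PPS.IsCyc f b
  ex : PPS.Exact f b g
  rho1 : 1 < ‖PPS.rho f b‖
  rho2 : Real.log ‖PPS.rho f b‖ ≤ ε
  bP : ∀ i, b i ∉ P
  rd : ∀ z, z ∉ P → DifferentiableAt ℂ r z
  eng : Eng n f (Set.range b ∪ P) (fun z => MPS.BB b g z + r z) rad (C * Real.log ‖PPS.rho f b‖)
  inv : ∀ (i : ZMod k) (R : ℝ), 0 < R →
    (∀ x ∈ ball (0 : ℂ) R, ‖(fun z => f.eval z)^[k] (b i + x) - b i - x‖ ≤ 3 * ‖x‖) →
    ∀ z ∈ ball (b i) (R / ε), z ∉ P ∧ R ^ 2 * ‖r z‖ ≤ ε ∧ ‖z‖ < rad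

/-- the multiplier of a counterexample. -/
def XMM_CE.rho {n : ℕ} {C ε : ℝ} (X : XMM_CE n C ε) : ℂ :=
  haveI := X.nz
  PPS.rho X.f X.b

theorem XMM_ex (n : ℕ) (C : ℝ) (h : ¬ ∃ ε > (0 : ℝ),
  ∀ (k : ℕ) [NeZero k] (f : Polynomial ℂ) (b g : ZMod k → ℂ) (r : ℂ → ℂ) (P : Set ℂ) (rad : ℝ),
  2 ≤ k → f.natDegree = n → PPS.IsCyc f b → PPS.Exact f b g → 1 < ‖PPS.rho f b‖ →
  Real.log ‖PPS.rho f b‖ ≤ ε → (∀ i, b i ∉ P) → (∀ z, z ∉ P → DifferentiableAt ℂ r z) →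
  Eng n f (Set.range b ∪ P) (fun z => MPS.BB b g z + r z) rad (C * Real.log ‖PPS.rho f b‖) →
  (∀ (i : ZMod k) (R : ℝ), 0 < R →
    (∀ x ∈ ball (0 : ℂ) R, ‖(fun z => f.eval z)^[k] (b i + x) - b i - x‖ ≤ 3 * ‖x‖) →
    ∀ z ∈ ball (b i) (R / ε), z ∉ P ∧ R ^ 2 * ‖r z‖ ≤ ε ∧ ‖z‖ < rad) → False) (ε : ℝ) (hε : 0 < ε) :
    Nonempty (XMM_CE n C ε) := by
  by_contra hne
  apply h
  refine ⟨ε, hε, ?_⟩
  intro k _ f b g r P rad h1 h2 h3 h4 h5 h6 h7 h8 h9 h10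
  exact hne ⟨⟨k, inferInstance, f, b, g, r, P, rad, h1, h2, h3, h4, h5, h6, h7, h8, h9, h10⟩⟩

theorem XMM_A (hDCA : XPD.DCA_stmt) (hXCA : XCA_stmt) (n : ℕ) (C : ℝ) (hn : 2 ≤ n) (hC : 0 < C)
    (ε : ℕ → ℝ) (hε0 : ∀ m, 0 < ε m) (hε1 : ∀ m, ε m ≤ 1) (hε : Tendsto ε atTop (𝓝 0))
    (X : ∀ m, XMM_CE n C (ε m)) (hlim : Tendsto (fun m => (X m).rho) atTop (𝓝 1)) : False := by
  obtain ⟨C₁, hC₁, hD⟩ := hDCA
  have hlog : Tendsto (fun m => Complex.log (X m).rho) atTop (𝓝 0) := by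
    have h1 : ContinuousAt Complex.log 1 := continuousAt_clog (by simp)
    have h2 := h1.tendsto.comp hlim
    rw [Complex.log_one] at h2
    exact h2
  obtain ⟨M, hM⟩ : ∃ M : ℕ, ∀ m ≥ M, ‖Complex.log (X m).rho‖ ≤ 1 / 100 := by
    have h1 := hlog.norm
    rw [norm_zero] at h1
    have h2 : ∀ᶠ m in atTop, ‖Complex.log (X m).rho‖ ≤ 1 / 100 := by
      filter_upwards [h1.eventually (Iio_mem_nhds (show (0 : ℝ) < 1 / 100 by norm_num))] with m hm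
      exact le_of_lt hm
    exact eventually_atTop.mp h2
  have hex : ∀ m : ℕ, ∃ D : Dat, D.Good n C₁ (1 / ε (m + M)) ∧ D.GA ∧
      D.lam = Complex.log (X (m + M)).rho ∧ D.E ≤ C * ‖Complex.log (X (m + M)).rho‖ := by
    intro m
    have := (X (m + M)).nz
    have hne : (X (m + M)).rho ≠ 0 := by
      intro h0
      have h1 := (X (m + M)).rho1
      have h2 : PPS.rho (X (m + M)).f (X (m + M)).b = 0 := h0
      rw [h2, norm_zero] at h1
      linarith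
    refine hD n (X (m + M)).k (X (m + M)).f (X (m + M)).b (X (m + M)).g
      (Complex.log (X (m + M)).rho) (ε (m + M)) C (X (m + M)).r (X (m + M)).P (X (m + M)).rad hn
      (X (m + M)).hk (X (m + M)).hdeg (X (m + M)).cyc (X (m + M)).ex ?_ ?_ (hM _ (by omega))
      (hε0 _) (hε1 _) hC (X (m + M)).bP (X (m + M)).rd (X (m + M)).eng (X (m + M)).inv
    · rw [Complex.exp_log hne]
      rfl
    · rw [Complex.log_re]
      exact Real.log_pos (X (m + M)).rho1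
  choose D hgood hga hlam hE using hex
  have hloga : Tendsto (fun m => Complex.log (X (m + M)).rho) atTop (𝓝 0) :=
    hlog.comp (tendsto_add_atTop_nat M)
  have hlogn : Tendsto (fun m => C * ‖Complex.log (X (m + M)).rho‖) atTop (𝓝 0) := by
    have h1 := hloga.norm.const_mul C
    rw [norm_zero, mul_zero] at h1
    exact h1
  have hSeq : Seq n C₁ D := by
    refine ⟨⟨fun m => 1 / ε (m + M), ?_, hgood⟩, ?_⟩
    · have h1 : Tendsto (fun m => ε (m + M)) atTop (𝓝[>] 0) := by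
        rw [tendsto_nhdsWithin_iff]
        exact ⟨hε.comp (tendsto_add_atTop_nat M), Eventually.of_forall (fun m => hε0 _)⟩
      have h2 := tendsto_inv_nhdsGT_zero.comp h1
      refine h2.congr (fun m => ?_)
      simp [one_div]
    · exact squeeze_zero (fun m => (hgood m).eng.E0) hE hlogn
  have hSA : SeqA (max C 1) D := by
    refine ⟨hga, ?_, le_max_right _ _, ?_⟩
    · refine hloga.congr (fun m => (hlam m).symm)
    · intro m
      rw [hlam m]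
      refine le_trans (hE m) ?_
      exact mul_le_mul_of_nonneg_right (le_max_left _ _) (norm_nonneg _)
  exact hXCA n C₁ (max C 1) D hC₁ hSeq hSA

theorem XMM_B (hDCB : XPD.DCB_stmt) (hXCB : XCB_stmt) (n : ℕ) (C : ℝ) (hn : 2 ≤ n) (hC : 0 < C)
    (ε : ℕ → ℝ) (hε0 : ∀ m, 0 < ε m) (hε1 : ∀ m, ε m ≤ 1) (hε : Tendsto ε atTop (𝓝 0))
    (X : ∀ m, XMM_CE n C (ε m)) (ζ : ℂ) (hζ : ‖ζ‖ = 1) (hζ1 : ζ ≠ 1)
    (hlim : Tendsto (fun m => (X m).rho) atTop (𝓝 ζ)) : False := by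
  have hd : 0 < ‖ζ - 1‖ / 2 := by
    have h1 : 0 < ‖ζ - 1‖ := norm_pos_iff.mpr (sub_ne_zero.mpr hζ1)
    linarith
  obtain ⟨η, hη, hη1, C₁, hC₁, hD⟩ := hDCB (‖ζ - 1‖ / 2) hd
  obtain ⟨M, hM⟩ : ∃ M : ℕ, ∀ m ≥ M, ‖(X m).rho‖ ≤ 3 / 2 ∧ ‖ζ - 1‖ / 2 ≤ ‖(X m).rho - 1‖ := by
    have h1 := hlim.norm
    rw [hζ] at h1
    have h2 := (hlim.sub_const 1).norm
    have h3 : ‖ζ - 1‖ / 2 < ‖ζ - 1‖ := by linarith
    have h4 : ∀ᶠ m in atTop, ‖(X m).rho‖ ≤ 3 / 2 ∧ ‖ζ - 1‖ / 2 ≤ ‖(X m).rho - 1‖ := by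
      filter_upwards [h1.eventually (Iio_mem_nhds (show (1 : ℝ) < 3 / 2 by norm_num)),
        h2.eventually (Ioi_mem_nhds h3)] with m hm hm'
      exact ⟨le_of_lt hm, le_of_lt hm'⟩
    exact eventually_atTop.mp h4
  have hex : ∀ m : ℕ, ∃ D : Dat, D.Good n C₁ (1 / ε (m + M)) ∧ D.GB η ∧
      PPS.rho D.f D.b = (X (m + M)).rho ∧ D.E = C * Real.log ‖(X (m + M)).rho‖ := by
    intro m
    have := (X (m + M)).nz
    obtain ⟨h1, h2⟩ := hM (m + M) (by omega)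
    exact hD n (X (m + M)).k (X (m + M)).f (X (m + M)).b (X (m + M)).g
      (ε (m + M)) C (X (m + M)).r (X (m + M)).P (X (m + M)).rad hn
      (X (m + M)).hk (X (m + M)).hdeg (X (m + M)).cyc (X (m + M)).ex (X (m + M)).rho1 h1 h2
      (hε0 _) (hε1 _) hC (X (m + M)).bP (X (m + M)).rd (X (m + M)).eng (X (m + M)).inv
  choose D hgood hgb hrho hE using hex
  have hlima : Tendsto (fun m => (X (m + M)).rho) atTop (𝓝 ζ) :=
    hlim.comp (tendsto_add_atTop_nat M)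
  have hSeq : Seq n C₁ D := by
    refine ⟨⟨fun m => 1 / ε (m + M), ?_, hgood⟩, ?_⟩
    · have h1 : Tendsto (fun m => ε (m + M)) atTop (𝓝[>] 0) := by
        rw [tendsto_nhdsWithin_iff]
        exact ⟨hε.comp (tendsto_add_atTop_nat M), Eventually.of_forall (fun m => hε0 _)⟩
      have h2 := tendsto_inv_nhdsGT_zero.comp h1
      refine h2.congr (fun m => ?_)
      simp [one_div]
    · have h1 : Tendsto (fun m => ‖(X (m + M)).rho‖) atTop (𝓝 1) := by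
        have h2 := hlima.norm
        rw [hζ] at h2
        exact h2
      have h3 : Tendsto (fun m => C * Real.log ‖(X (m + M)).rho‖) atTop (𝓝 0) := by
        have h4 := (h1.log (one_ne_zero)).const_mul C
        rw [Real.log_one, mul_zero] at h4
        exact h4
      refine h3.congr (fun m => (hE m).symm)
  have hSB : SeqB η ζ D := by
    refine ⟨hgb, ⟨hη, hη1⟩, ⟨hζ, hζ1⟩, ?_⟩
    exact hlima.congr (fun m => (hrho m).symm)
  exact hXCB n C₁ η ζ D hC₁ hSeq hSB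

theorem XMM (hDCA : XPD.DCA_stmt) (hDCB : XPD.DCB_stmt) (hXCA : XCA_stmt) (hXCB : XCB_stmt) :
    XMM_stmt := by
  intro n C hn hC
  by_contra hcon
  have hex := XMM_ex n C hcon
  have hX : ∀ m : ℕ, Nonempty (XMM_CE n C (1 / ((m : ℝ) + 2))) := fun m => hex _ (by positivity)
  let X : ∀ m : ℕ, XMM_CE n C (1 / ((m : ℝ) + 2)) := fun m => (hX m).some
  have hε : Tendsto (fun m : ℕ => 1 / ((m : ℝ) + 2)) atTop (𝓝 0) := by
    have h1 : Tendsto (fun m : ℕ => (m : ℝ) + 2) atTop atTop :=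
      tendsto_atTop_add_const_right _ _ tendsto_natCast_atTop_atTop
    exact h1.inv_tendsto_atTop.congr (fun m => by simp [one_div])
  have hnorm : ∀ m, 1 < ‖(X m).rho‖ ∧ ‖(X m).rho‖ ≤ Real.exp (1 / ((m : ℝ) + 2)) := by
    intro m
    have := (X m).nz
    have h1 : 1 < ‖(X m).rho‖ := (X m).rho1
    have h2 : Real.log ‖(X m).rho‖ ≤ 1 / ((m : ℝ) + 2) := (X m).rho2
    refine ⟨h1, ?_⟩
    rw [← Real.exp_log (show 0 < ‖(X m).rho‖ by linarith)]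
    exact Real.exp_le_exp.mpr h2
  have hn1 : Tendsto (fun m => ‖(X m).rho‖) atTop (𝓝 1) := by
    have h1 : Tendsto (fun m : ℕ => Real.exp (1 / ((m : ℝ) + 2))) atTop (𝓝 1) := by
      have h2 := (Real.continuous_exp.tendsto 0).comp hε
      rw [Real.exp_zero] at h2
      exact h2
    exact tendsto_of_tendsto_of_tendsto_of_le_of_le tendsto_const_nhds h1
      (fun m => (hnorm m).1.le) (fun m => (hnorm m).2)
  have hbdd : ∀ m, (X m).rho ∈ closedBall (0 : ℂ) (Real.exp 1) := by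
    intro m
    rw [mem_closedBall_zero_iff]
    refine le_trans (hnorm m).2 (Real.exp_le_exp.mpr ?_)
    have h1 : (0 : ℝ) ≤ (m : ℝ) := Nat.cast_nonneg m
    rw [div_le_one (by linarith)]
    linarith
  obtain ⟨ζ, -, φ, hφ, hζ⟩ := (isCompact_closedBall (0 : ℂ) (Real.exp 1)).tendsto_subseq hbdd
  have hζn : ‖ζ‖ = 1 := tendsto_nhds_unique hζ.norm (hn1.comp hφ.tendsto_atTop)
  have hε0 : ∀ m : ℕ, 0 < 1 / ((φ m : ℝ) + 2) := fun m => by positivity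
  have hε1 : ∀ m : ℕ, 1 / ((φ m : ℝ) + 2) ≤ 1 := by
    intro m
    have h1 : (0 : ℝ) ≤ (φ m : ℝ) := Nat.cast_nonneg _
    rw [div_le_one (by linarith)]
    linarith
  have hεφ : Tendsto (fun m : ℕ => 1 / ((φ m : ℝ) + 2)) atTop (𝓝 0) := hε.comp hφ.tendsto_atTop
  by_cases h1 : ζ = 1
  · rw [h1] at hζ
    exact XMM_A hDCA hXCA n C hn hC (fun m => 1 / ((φ m : ℝ) + 2)) hε0 hε1 hεφ
      (fun m => X (φ m)) hζ
  · exact XMM_B hDCB hXCB n C hn hC (fun m => 1 / ((φ m : ℝ) + 2)) hε0 hε1 hεφ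
      (fun m => X (φ m)) ζ hζn h1 hζ

end XPX
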