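import Pool.Agent.helper54.XP.AllG
import Pool.Agent.helper1.XP.DTR
import Pool.Agent.helper1.XP.NLM
import Pool.Agent.helper1.XP.ROT
import Pool.Agent.helper11.XP.DEX
import Pool.Agent.helper12.XP.DGO
import Pool.Agent.helper13.XP.NIA
import Pool.Agent.helper13.XP.SWZ
import Pool.Agent.helper14.XP.EN1M
import Pool.Agent.helper18.XP.DIN
import Pool.Agent.helper18.XP.ENDG
import Pool.Agent.helper19.XP.STS
import Pool.Agent.helper21.XP.PPH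
import Pool.Agent.helper23.XP.KCB
import Pool.Agent.helper23.XP.PVG
import Pool.Agent.helper26.XP.CTS
import Pool.Agent.helper28.XP.PQC
import Pool.Agent.helper29.XP.PHC
import Pool.Agent.helper31.XP.FQP
import Pool.Agent.helper31.XP.STN
import Pool.Agent.helper33.XP.PEN
import Pool.Agent.helper38.XP.VB1
import Pool.Agent.helper38.XP.XCB
import Pool.Agent.helper40.XP.C2Q
import Pool.Agent.helper41.XP.RTX
import Pool.Agent.helper43.XP.PDE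
import Pool.Agent.helper46.XP.ENS
import Pool.Agent.helper46.XP.FSUM
import Pool.Agent.helper46.XP.NA1
import Pool.Agent.helper50.XP.NI1
import Pool.Agent.helper51.XP.INVL
import Pool.Agent.helper52.XP.DGB
import Pool.Agent.helper52.XP.FQN
import Pool.Agent.helper52.XP.NI2
import Pool.Agent.helper54.XP.NIB
import Pool.Agent.helper55.XP.PSI
import Pool.Agent.helper56.XP.STC
import Pool.Agent.helper60.XP.C2V
import Pool.Agent.helper60.XP.NRX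
import Pool.Agent.helper60.XP.PRAT
import Pool.Agent.helper60.XP.XCA
import Pool.Agent.helper60.XP.XMM
import Pool.Agent.helper61.XP.DIA
import Pool.Agent.helper61.XP.FRT
import Pool.Agent.helper61.XP.N2A
import Pool.Agent.helper63.XP.STA
import Pool.Agent.helper64.XP.FGR
import Pool.Agent.helper66.XP.DCA
import Pool.Agent.helper66.XP.INVB
import Pool.Agent.helper70.XP.BCV
import Pool.Agent.helper72.XP.INVG
import Pool.Agent.helper72.XP.PSL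
import Pool.Agent.helper72.XP.SCL
import Pool.Agent.helper73.XP.ENB
import Pool.Agent.helper73.XP.NCA
import Pool.Agent.helper76.XP.DIS
import Pool.Agent.helper76.XP.FCP
import Pool.Agent.helper76.XP.FEN
import Pool.Agent.helper77.XP.GRO
import Pool.Agent.helper77.XP.STB
import Pool.Agent.helper78.XP.EN2M
import Pool.Agent.helper78.XP.NPC
import Pool.Agent.helper8.XP.CHX
import Pool.Agent.helper8.XP.DIT
import Pool.Agent.helper8.XP.FPP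
import Pool.Agent.helper81.XP.RTU
import Pool.Agent.helper82.XP.RLT
import Pool.Agent.helper87.XP.DSE
import Pool.Agent.helper87.XP.GTR
import Pool.Agent.helper89.XP.DIR
import Pool.Agent.helper91.XP.PPE
import Pool.Agent.helper91.XP.TAX
import Pool.Agent.helper93.XP.DCB
import Pool.Agent.helper97.XP.DEG
import Pool.Agent.helper97.XP.NAF
import Pool.Agent.helper99.XP.DTL

/-!
# Project xp: parts D, E, T, N, X: assembly of the abstract main theorem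
-/

set_option autoImplicit false

namespace XPA

theorem SCL_d : XPD.SCL_stmt := XPD.SCL
theorem SWZ_d : XPD.SWZ_stmt := XPD.SWZ
theorem DIT_d : XPD.DIT_stmt := XPD.DIT
theorem DEX_d : XPD.DEX_stmt := XPD.DEX XPA.SCL_d XPA.DIT_d
theorem DIN_d : XPD.DIN_stmt := XPD.DIN XPA.DIT_d
theorem DSE_d : XPD.DSE_stmt := XPD.DSE XPA.DIT_d
theorem DTL_d : XPD.DTL_stmt := XPD.DTL XPA.DIN_d XPA.DIT_d V3A.KO1_v V3A.KO3_v
theorem DTR_d : XPD.DTR_stmt := XPD.DTR XPA.DTL_d XPA.DIT_d XPA.SWZ_d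
theorem DEG_d : XPD.DEG_stmt := XPD.DEG XPA.DIT_d
theorem DGB_d : XPD.DGB_stmt := XPD.DGB XPA.DEG_d XPA.DIT_d XPA.SWZ_d
theorem DGO_d : XPD.DGO_stmt := XPD.DGO XPA.DEX_d XPA.DIN_d XPA.DSE_d XPA.DTR_d XPA.DGB_d
theorem DCA_d : XPD.DCA_stmt := XPD.DCA XPA.DGO_d
theorem DCB_d : XPD.DCB_stmt := XPD.DCB XPA.DGO_d
theorem GRO_e : XPE.GRO_stmt := XPE.GRO V3A.GSF_v
theorem GTR_e : XPE.GTR_stmt := XPE.GTR XPA.GRO_e V3A.GLA_v V3A.GEL_v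
theorem VB1_e : XPE.VB1_stmt := XPE.VB1 V3A.PCO_v
theorem ENB_e : XPE.ENB_stmt := XPE.ENB V3A.PCO_v
theorem FSUM_e : XPE.FSUM_stmt := XPE.FSUM V3A.REMO_v V3A.AFF2_v
theorem PPE_e : XPE.PPE_stmt := XPE.PPE V3A.PCO_v
theorem PDE_e : XPE.PDE_stmt := XPE.PDE
theorem PRAT_e : XPE.PRAT_stmt := XPE.PRAT XPA.PPE_e V3A.REMO_v XPA.PDE_e V3A.PR0_v V3A.AFF2_v V3A.PCO_v
theorem PSL_e : XPE.PSL_stmt := XPE.PSL
theorem FRT_e : XPE.FRT_stmt := XPE.FRT XPA.FSUM_e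
theorem FPP_e : XPE.FPP_stmt := XPE.FPP
theorem FCP_e : XPE.FCP_stmt := XPE.FCP
theorem FQN_e : XPE.FQN_stmt := XPE.FQN V3A.FPH_v V3A.FCI_v V3A.FPL_v XPA.ENB_e
theorem FQP_e : XPE.FQP_stmt := XPE.FQP XPA.FPP_e XPA.FCP_e V3A.FPL_v XPA.ENB_e
theorem FGR_e : XPE.FGR_stmt := XPE.FGR XPA.FPP_e
theorem FEN_e : XPE.FEN_stmt := XPE.FEN XPA.FRT_e XPA.FQN_e XPA.FQP_e XPA.FGR_e XPA.VB1_e V3A.SQC_v V3A.FLAG_v V3A.PCO_v
theorem PPH_e : XPE.PPH_stmt := XPE.PPH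
theorem PQC_e : XPE.PQC_stmt := XPE.PQC XPA.PPE_e V3A.PFO_v XPA.PPH_e XPA.PSL_e V3A.PIN_v
theorem PVG_e : XPE.PVG_stmt := XPE.PVG XPA.PPE_e V3A.PFO_v V3A.PCO_v
theorem PEN_e : XPE.PEN_stmt := XPE.PEN XPA.PRAT_e XPA.PQC_e XPA.PVG_e XPA.VB1_e V3A.SQC_v V3A.PCO_v
theorem ENDG_e : XPE.ENDG_stmt := XPE.ENDG XPA.GTR_e XPA.FEN_e XPA.PEN_e
theorem C2Q_e : XPE.C2Q_stmt := XPE.C2Q
theorem C2V_e : XPE.C2V_stmt := XPE.C2V
theorem INVG_t : XPT.INVG_stmt := XPT.INVG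
theorem INVL_t : XPT.INVL_stmt := XPT.INVL
theorem DIR_t : XPT.DIR_stmt := XPT.DIR
theorem DIA_t : XPT.DIA_stmt := XPT.DIA
theorem RTU_t : XPT.RTU_stmt := XPT.RTU
theorem RTX_t : XPT.RTX_stmt := XPT.RTX
theorem ROT_t : XPT.ROT_stmt := XPT.ROT XPA.RTU_t XPA.RTX_t
theorem RLT_t : XPT.RLT_stmt := XPT.RLT
theorem DIS_t : XPT.DIS_stmt := XPT.DIS V3A.KO0_v V3A.KO3_v
theorem STS_t : XPT.STS_stmt := XPT.STS
theorem ENS_t : XPT.ENS_stmt := XPT.ENS XPS.MIX_x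
theorem STC_t : XPT.STC_stmt := XPT.STC XPA.STS_t XPA.ENS_t XPS.LVG_x XPS.MAX_x XPS.LEAX_x XPS.MIX_x
theorem TAX_t : XPT.TAX_stmt := XPT.TAX
theorem KCB_t : XPT.KCB_stmt := XPT.KCB
theorem PHC_t : XPT.PHC_stmt := XPT.PHC
theorem CTS_t : XPT.CTS_stmt := XPT.CTS XPA.STS_t XPA.STC_t XPA.KCB_t XPA.PHC_t XPA.TAX_t
theorem NPC_t : XPT.NPC_stmt := XPT.NPC
theorem CHX_t : XPT.CHX_stmt := XPT.CHX V3A.NCH_v XPA.NPC_t
theorem BCV_t : XPT.BCV_stmt := XPT.BCV XPA.NPC_t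
theorem STA_t : XPT.STA_stmt := XPT.STA XPA.DIS_t XPA.CTS_t XPA.CHX_t XPA.BCV_t XPA.INVG_t
theorem PSI_t : XPT.PSI_stmt := XPT.PSI V3A.TMO_v V3A.TDE_v
theorem INVB_t : XPT.INVB_stmt := XPT.INVB XPA.DIS_t XPA.STC_t XPA.TAX_t XPA.CHX_t XPA.BCV_t XPA.INVG_t XPA.RLT_t
theorem STN_t : XPT.STN_stmt := XPT.STN XPA.PSI_t XPA.INVB_t XPA.ROT_t XPA.INVL_t XPA.BCV_t
theorem STB_t : XPT.STB_stmt := XPT.STB XPA.DIS_t XPA.STN_t XPA.CHX_t XPA.CTS_t XPA.DIA_t XPA.DIR_t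
theorem NA1_n : XPN.NA1_stmt := XPN.NA1
theorem NCA_n : XPN.NCA_stmt := XPN.NCA XPA.NA1_n
theorem NLM_n : XPN.NLM_stmt := XPN.NLM XPA.NA1_n XPL.LPI_l
theorem NIA_n : XPN.NIA_stmt := XPN.NIA XPL.LPI_l
theorem NIB_n : XPN.NIB_stmt := XPN.NIB XPL.LPI_l
theorem NI1_n : XPN.NI1_stmt := XPN.NI1 XPA.NA1_n XPA.NCA_n XPA.NLM_n XPA.NIA_n XPL.LPI_l V3A.NORM_v
theorem NAF_n : XPN.NAF_stmt := XPN.NAF V3A.NFA_v V3A.NPK_v
theorem N2A_n : XPN.N2A_stmt := XPN.N2A XPA.NA1_n XPA.NAF_n V3A.TUL_v XPL.LPI_l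
theorem NI2_n : XPN.NI2_stmt := XPN.NI2 XPA.N2A_n XPA.NLM_n XPA.NIB_n
theorem NRX_n : XPN.NRX_stmt := XPN.NRX XPA.NI1_n XPA.NI2_n
theorem EN1M_x : XPX.EN1M_stmt := XPX.EN1M XPA.ENDG_e
theorem EN2M_x : XPX.EN2M_stmt := XPX.EN2M XPA.C2Q_e XPA.C2V_e
theorem XCB_x : XPX.XCB_stmt := XPX.XCB XPA.NRX_n XPA.STB_t XPL.BEN_l
theorem XCA_x : XPX.XCA_stmt := XPX.XCA XPA.NRX_n XPA.STA_t (XPG.GF1_g XPA.EN1M_x) (XPG.GF2_g XPA.EN2M_x)
theorem XMM_x : XPX.XMM_stmt := XPX.XMM XPA.DCA_d XPA.DCB_d XPA.XCA_x XPA.XCB_x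


/-- the abstract main theorem. -/
theorem XM_a : XP.XM_stmt := XMM_x

end XPA
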