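import Pool.Agent.helper54.XP.SpecS
import Pool.Agent.helper54.V3.SpecT
import Pool.Agent.helper10.V3.Defs

/-!
# Project xp: (MP_af9036_an, MP_70a088_an): Theorem X': definitions

Paper proof: /team-store/MP_af9036_XP_helper60.md, quoted as [XP, section].

A quadratic differential is a function `H : ℂ → ℂ`, holomorphic off a finite set `P` with `f(P) ⊆ P` (`XPS.AD f P H`). In the
application `H = s (BB b g + r)` with exact coefficients `g` for the cycle `b`, `r` invisible near the cycle.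
-/

set_option autoImplicit false

open Complex Metric Set Filter Topology MeasureTheory
open V3S (UF)

noncomputable section

namespace XP

/-- the energy inequality on `ball 0 R`. -/
structure Eng (n : ℕ) (f : Polynomial ℂ) (P : Set ℂ) (H : ℂ → ℂ) (R E : ℝ) : Prop where
  hn : 2 ≤ n
  hdeg : f.natDegree = n
  ad : XPS.AD f P H
  posR : 0 < R
  inv : ∀ y : ℂ, ‖f.eval y‖ < R → ‖y‖ < R
  E0 : 0 ≤ E
  hE : ∫⁻ z in ball (0 : ℂ) R, ENNReal.ofReal (XPS.Df f H z + 2 * ‖XPS.er f H z‖) ≤ ENNReal.ofReal E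

/-! ## Data -/

/-- a datum. The first group of fields is given, the last group (`s, N, om, de`) consists of parameters that are chosen
later (`D.par s N om de`). -/
structure Dat where
  k : ℕ
  nz : NeZero k
  f : Polynomial ℂ
  b : ZMod k → ℂ
  g : ZMod k → ℂ
  /-- the invisible part of the differential, and its poles. -/
  r : ℂ → ℂ
  P : Set ℂ
  /-- radius of the ball on which the energy inequality holds, energy. -/
  rad : ℝ
  E : ℝ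
  /-- the scales of the points of the cycle. -/
  R : ZMod k → ℝ
  lam : ℂ
  /-- normalising factor of the differential. -/
  s : ℝ
  /-- number of turns; bound of the level functions; bound of the displacement. -/
  N : ℕ
  om : ℝ
  de : ℝ

attribute [instance] Dat.nz

namespace Dat

/-- change of the parameters. -/
def par (D : Dat) (s : ℝ) (N : ℕ) (om de : ℝ) : Dat :=
  ⟨D.k, D.nz, D.f, D.b, D.g, D.r, D.P, D.rad, D.E, D.R, D.lam, s, N, om, de⟩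

/-- the number of levels. -/
def K (D : Dat) : ℕ := D.N * D.k

/-- the differential. -/
def H0 (D : Dat) (z : ℂ) : ℂ := MPS.BB D.b D.g z + D.r z

/-- the normalised differential. -/
def H (D : Dat) (z : ℂ) : ℂ := (D.s : ℂ) * D.H0 z

/-- all poles of `H`. -/
def PP (D : Dat) : Set ℂ := Set.range D.b ∪ D.P

/-- the scale. -/
def sg (D : Dat) : ℂ := (D.R 0 : ℂ)

/-- from the `x`-plane to the `z`-plane. -/
def zz (D : Dat) (x : ℂ) : ℂ := D.b 0 + D.sg * x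

/-- from the `z`-plane to the `x`-plane. -/
def xx (D : Dat) (z : ℂ) : ℂ := (z - D.b 0) / D.sg

/-- the `j`-th iterate of `f` in the `z`-plane. -/
def it (D : Dat) (j : ℕ) (z : ℂ) : ℂ := (fun z => D.f.eval z)^[j] z

/-- the `j`-th iterate of `f` in the `x`-plane. -/
def F (D : Dat) (j : ℕ) (x : ℂ) : ℂ := D.xx ((fun z => D.f.eval z)^[j] (D.zz x))

/-- the derivative of the `j`-th iterate at the pole `0`. -/
def A (D : Dat) (j : ℕ) : ℂ := deriv (D.F j) 0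

/-- the points of the cycle in the `x`-plane. -/
def p (D : Dat) (l : ZMod D.k) : ℂ := D.xx (D.b l)

/-- the differential `H` in the `x`-plane. -/
def B (D : Dat) (x : ℂ) : ℂ := D.sg ^ 2 * D.H (D.zz x)

/-- the visible part `BB b g` in the `x`-plane. -/
def Bb (D : Dat) (x : ℂ) : ℂ := D.sg ^ 2 * MPS.BB D.b D.g (D.zz x)

/-- `v = (f^k - id)/lam` in the `x`-plane. -/
def v (D : Dat) (x : ℂ) : ℂ := (D.F D.k x - x) / D.lam

/-- the pulled back differential `(F_j)^* H` in the `x`-plane. -/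
def T (D : Dat) (j : ℕ) (x : ℂ) : ℂ := deriv (D.F j) x ^ 2 * D.B (D.F j x)

/-- the standing assumptions on one datum [XP, 2]: `C` is the constant of the dynamics, `A` (large) the quality of the
invisibility of `r`. No condition on the parameters `s, N, om, de`. -/
structure Good (n : ℕ) (C A : ℝ) (D : Dat) : Prop where
  hn : 2 ≤ n
  hdeg : D.f.natDegree = n
  hk : 2 ≤ D.k
  cyc : PPS.IsCyc D.f D.b
  ex : PPS.Exact D.f D.b D.g
  rho1 : 1 < ‖PPS.rho D.f D.b‖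
  rho2 : ‖PPS.rho D.f D.b‖ ≤ 2
  C1 : 1 ≤ C
  A1 : 1 ≤ A
  Rpos : ∀ i, 0 < D.R i
  mini : ∀ i, D.R 0 ≤ D.R i
  inj : ∀ i, ∀ j ≤ D.k, InjOn (D.it j) (ball (D.b i) (D.R i / 2))
  sepr : ∀ i l, i ≠ l → D.R i ≤ ‖D.b i - D.b l‖
  trans : ∀ (i : ZMod D.k), ∀ j ≤ D.k, ‖deriv (D.it j) (D.b i)‖ * D.R i ≤ C * D.R (i + (j : ZMod D.k))
  hg : ∀ i, ‖D.g i‖ * D.R i ≤ C
  /-- energy -/
  eng : Eng n D.f D.PP D.H0 D.rad D.E
  /-- invisibility -/
  rdiff : ∀ z, z ∉ D.P → DifferentiableAt ℂ D.r z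
  bP : ∀ i, D.b i ∉ D.P
  invi : ∀ i, ∀ z ∈ ball (D.b i) (A * D.R i), z ∉ D.P ∧ A * (D.R i ^ 2 * ‖D.r z‖) ≤ 1 ∧ ‖z‖ < D.rad

/-- case `ζ = 1`: the scale of the base point [XP, 2]. -/
structure GA (D : Dat) : Prop where
  hrho : PPS.rho D.f D.b = Complex.exp D.lam
  lam0 : 0 < D.lam.re
  near : ∀ x ∈ ball (0 : ℂ) 1, ‖D.v x - x‖ ≤ ‖x‖ / 10
  far : ∃ x : ℂ, ‖x‖ = 1 ∧ ‖D.v x - x‖ = 1 / 10

/-- case `ζ ≠ 1`: the scale of the base point [XP, 2]. -/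
structure GB (η : ℝ) (D : Dat) : Prop where
  near : ∀ x ∈ ball (0 : ℂ) 1, ‖D.F D.k x - PPS.rho D.f D.b * x‖ ≤ η * ‖x‖
  far : ∃ x : ℂ, ‖x‖ = 1 ∧ ‖D.F D.k x - PPS.rho D.f D.b * x‖ = η

end Dat

/-- a sequence of data. -/
structure Seq (n : ℕ) (C : ℝ) (D : ℕ → Dat) : Prop where
  good : ∃ A : ℕ → ℝ, Tendsto A atTop atTop ∧ ∀ m, (D m).Good n C (A m)
  E0 : Tendsto (fun m => (D m).E) atTop (𝓝 0)

/-- the parameters `s, N, om, de` [XP, 3]. -/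
structure Par (D : ℕ → Dat) : Prop where
  s0 : ∀ m, 0 < (D m).s
  s1 : ∀ m, (D m).s ≤ 1
  N1 : ∀ m, 1 ≤ (D m).N
  om0 : ∀ m, 0 < (D m).om
  eo : ∀ᶠ m in UF, (D m).N * (D m).E ≤ (D m).om
  od : ∀ᶠ m in UF, (D m).om ≤ (D m).de
  om1 : Tendsto (fun m => ((D m).N : ℝ) ^ 3 * (D m).om) UF (𝓝 0)
  de1 : Tendsto (fun m => (D m).de) UF (𝓝 0)

/-- sequence for the case `ζ = 1`; the energy is at most `C |lam|`. -/
structure SeqA (C : ℝ) (D : ℕ → Dat) : Prop where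
  ga : ∀ m, (D m).GA
  lim : Tendsto (fun m => (D m).lam) atTop (𝓝 0)
  C1 : 1 ≤ C
  El : ∀ m, (D m).E ≤ C * ‖(D m).lam‖

/-- the parameters in the case `ζ = 1`. -/
structure ParA (C : ℝ) (D : ℕ → Dat) : Prop where
  N1 : ∀ m, (D m).N = 1
  om : ∀ m, (D m).om = C * ‖(D m).lam‖
  de : ∀ m, (D m).de = C * ‖(D m).lam‖

/-- sequence for the case `ζ ≠ 1`. -/
structure SeqB (η : ℝ) (ζ : ℂ) (D : ℕ → Dat) : Prop where
  gb : ∀ m, (D m).GB η
  eta : 0 < η ∧ η ≤ 1 / 100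
  zeta : ‖ζ‖ = 1 ∧ ζ ≠ 1
  lim : Tendsto (fun m => PPS.rho (D m).f (D m).b) atTop (𝓝 ζ)

/-- the limit set of the poles. -/
def Pin (D : ℕ → Dat) : Set ℂ :=
  {p | ∀ ε > (0 : ℝ), ∀ᶠ m in UF, ∃ l : ZMod (D m).k, ‖(D m).p l - p‖ < ε}

/-- the limit of `B`. -/
def Bin (D : ℕ → Dat) (x : ℂ) : ℂ := limUnder UF fun m => (D m).B x

/-- the limit of `v`. -/
def vin (D : ℕ → Dat) (x : ℂ) : ℂ := limUnder UF fun m => (D m).v x

/-- the regular set: no poles, no zeros of the limit. -/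
def Reg (D : ℕ → Dat) : Set ℂ := {x | x ∉ Pin D ∧ Bin D x ≠ 0}

/-- the limit of the normalised differential exists, its zeros do not accumulate, and its form at `0` [XP, 3]. -/
structure LB (D : ℕ → Dat) : Prop where
  diff : DifferentiableOn ℂ (Bin D) (Pin D)ᶜ
  conv : ∀ K : Set ℂ, IsCompact K → K ⊆ (Pin D)ᶜ →
    TendstoUniformlyOn (fun m => (D m).B) (Bin D) UF K
  acc : ∀ x : ℂ, ∀ᶠ y in 𝓝[≠] x, y ∉ Pin D ∧ Bin D y ≠ 0
  zero : ∃ (d : ℤ) (E : ℂ → ℂ), -2 ≤ d ∧ AnalyticAt ℂ E 0 ∧ E 0 ≠ 0 ∧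
    ∀ᶠ x in 𝓝[≠] (0 : ℂ), Bin D x = x ^ d * E x

/-- the chain property [XP, 5]: natural chart at `x` and tower of `K = N k` levels over it with small errors. -/
structure Ctl (D : Dat) (x : ℂ) (r C : ℝ) (χ : ℂ → ℂ) (G : ℕ → ℂ → ℂ) (Φ : ℂ → ℂ) : Prop where
  nat : XPS.IsNat D.PP D.H χ (ball 0 (2 * r))
  val : χ 0 = D.zz x
  aff : ∀ w ∈ ball (0 : ℂ) (2 * r), ‖deriv χ w - deriv χ 0‖ ≤ ‖deriv χ 0‖ / 10
  lev : XPS.LevSys D.f D.PP D.H G (ball 0 r) D.K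
  g0 : EqOn (G 0) χ (ball 0 r)
  sum : ∀ w ∈ ball (0 : ℂ) r, ∑ q ∈ Finset.Icc 1 D.K, XPS.lev D.H G q w ≤ C * D.om
  phd : DifferentiableOn ℂ Φ (ball 0 r)
  phi : ∀ w ∈ ball (0 : ℂ) r, Φ w ∈ ball (0 : ℂ) (2 * r) ∧ ‖Φ w - w‖ ≤ C * D.de ∧
    χ (Φ w) = G D.K w
  kc : ∀ q, 1 ≤ q → q ≤ D.K → ‖G q 0 - D.b (-(q : ZMod D.k))‖ ≤ C * ‖deriv (G q) 0‖

/-- the chain property at the point `x` of the limit plane. -/
def CTL (D : ℕ → Dat) (x : ℂ) : Prop :=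
  ∃ r > (0 : ℝ), ∃ C > (0 : ℝ), ∀ᶠ m in UF, ∃ (χ : ℂ → ℂ) (G : ℕ → ℂ → ℂ) (Φ : ℂ → ℂ),
    Ctl (D m) x r C χ G Φ

/-- XM, the abstract main theorem: repelling cycles of small energy `E ≤ C log|ρ|` (energy of the differential
`BB b g + r`, where the extra part `r` is invisible at the scale of the cycle) do not exist. The invisibility is only
used for the discs `D(b_i, R)` on which `|f^k - id| ≤ 3 |x|`. -/
def XM_stmt : Prop := ∀ (n : ℕ) (C : ℝ), 2 ≤ n → 0 < C → ∃ ε > (0 : ℝ),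
  ∀ (k : ℕ) [NeZero k] (f : Polynomial ℂ) (b g : ZMod k → ℂ) (r : ℂ → ℂ) (P : Set ℂ) (rad : ℝ),
  2 ≤ k → f.natDegree = n → PPS.IsCyc f b → PPS.Exact f b g → 1 < ‖PPS.rho f b‖ →
  Real.log ‖PPS.rho f b‖ ≤ ε → (∀ i, b i ∉ P) → (∀ z, z ∉ P → DifferentiableAt ℂ r z) →
  Eng n f (Set.range b ∪ P) (fun z => MPS.BB b g z + r z) rad (C * Real.log ‖PPS.rho f b‖) →
  (∀ (i : ZMod k) (R : ℝ), 0 < R →
    (∀ x ∈ ball (0 : ℂ) R, ‖(fun z => f.eval z)^[k] (b i + x) - b i - x‖ ≤ 3 * ‖x‖) →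
    ∀ z ∈ ball (b i) (R / ε), z ∉ P ∧ R ^ 2 * ‖r z‖ ≤ ε ∧ ‖z‖ < rad) → False

end XP
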