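import Pool.Agent.helper60.XP.SpecN
import Pool.Agent.helper38.XP.XCB

set_option autoImplicit false

open Complex Metric Set Filter Topology MeasureTheory
open V3S (UF)
open XP
open XPX (nu)

noncomputable section

namespace XPN

theorem NRX_seq (n : ℕ) (C : ℝ) (D D' : ℕ → Dat) (s : ℕ → ℝ) (h : Seq n C D)
    (hD : ∀ m, D' m = (D m).par (s m) (D' m).N (D' m).om (D' m).de) : Seq n C D' := by
  have h1 : D' = fun m => (D m).par (s m) (D' m).N (D' m).om (D' m).de := funext hD
  rw [h1]
  exact XPX.XCB_seq n C D s (fun m => (D' m).N) (fun m => (D' m).om) (fun m => (D' m).de) h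

theorem NRX (hI : NI1_stmt) (hII : NI2_stmt) : NRX_stmt := by
  intro n C D hS
  by_cases hM : ∃ M : ℝ, ∀ᶠ m in UF, nu (D m) ≤ M
  · left
    obtain ⟨M, hM⟩ := hM
    intro D' hD
    refine hI n C M D' (NRX_seq n C D D' (fun _ => 1) hS hD) ?_ ?_
    · filter_upwards [hM] with m hm
      rw [hD m]
      exact hm
    · intro m
      rw [hD m]
      rfl
  · right
    have hT : Tendsto (fun m => nu (D m)) UF atTop := by
      rw [Filter.tendsto_atTop]
      intro M
      have h2 : ∀ᶠ m in UF, ¬ (nu (D m) ≤ M) :=
        Ultrafilter.eventually_not.mpr (fun h => hM ⟨M, h⟩)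
      filter_upwards [h2] with m hm
      push Not at hm
      exact hm.le
    intro D' hD
    refine hII n C D' (NRX_seq n C D D' (fun m => (nu (D m))⁻¹) hS hD) ?_ ?_
    · have h3 : (fun m => nu (D' m)) = fun m => nu (D m) := by
        funext m
        rw [hD m]
        rfl
      rw [h3]
      exact hT
    · intro m
      have h3 : nu (D' m) = nu (D m) := by
        rw [hD m]
        rfl
      rw [h3, hD m]
      rfl

end XPN

namespace XPX

theorem NRM (h : XPN.NRX_stmt) : NRM_stmt := h

end XPX
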