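import Pool.Agent.helper54.V3.SpecE

/-!
# Project xp: (MP_af9036_an), part E: the end game (pure complex analysis of the limit object)

Paper: /team-store/MP_af9036_XP_helper60.md, sections 7, 8.2, 8.3, quoted as [XP, (x.y)]. Differences to V3 (Pool/Agent/helper54/V3/SpecE.lean): no counting of zeros; instead `v` is not the identity.
File `Pool/Agent/<seat>/XP/XX.lean`: `import Pool.Agent.helper60.XP.SpecE`, `set_option autoImplicit false`, `open Complex Metric Set Filter Topology MeasureTheory`, `open V3 (En ZL)`, `noncomputable section`,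
`namespace XPE`, `theorem XX (h : YY_stmt) ... : XX_stmt`. Hypotheses may be: other statements of this file (no circles) and the statements of `V3` (all proved) that do not contain `V3.Lim`:
`V3.GSF_stmt, GLA, GEL, AFF2, REMO, SQC, PCO, FPOL, FPH, FPL, FCI, FLAG, PR0, PFO, PIN`. Auxiliary lemmas are prefixed `XX_`. No `sorry`, no double quotes in comments.
COPY means: the proof in the named V3 file works after replacing `Lim` by `XPE.Lim` (the fields `cF`, `cZ` are not used there).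
-/

set_option autoImplicit false

open Complex Metric Set Filter Topology MeasureTheory
open V3 (En ZL)

noncomputable section

namespace XPE

/-- the data of the limit [XP, 8]: `P` poles, `A p` the linear part of `α_p x = p + A p x`, `g p` the residues, `B`, `v`, `q = L_v B`, `θ = lim λ/|λ|`. -/
structure Lim (P : Set ℂ) (A g B v q : ℂ → ℂ) (θ : ℂ) : Prop where
  zero : (0 : ℂ) ∈ P
  sep : ∃ s > (0 : ℝ), ∀ p ∈ P, ∀ p' ∈ P, p ≠ p' → s ≤ ‖p - p'‖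
  hg : ∃ C : ℝ, ∀ p ∈ P, ‖g p‖ ≤ C
  Bd : DifferentiableOn ℂ B Pᶜ
  Bp : ∀ p ∈ P, ∃ h : ℂ → ℂ, AnalyticAt ℂ h p ∧
    ∀ᶠ x in 𝓝[≠] p, B x = 1 / (x - p) ^ 2 + g p / (x - p) + h x
  B2 : ∀ x ∉ P, iteratedDeriv 2 B x = ∑' p : P, (6 / (x - (p : ℂ)) ^ 4 + 2 * g p / (x - (p : ℂ)) ^ 3)
  vd : Differentiable ℂ v
  v0 : ∀ p ∈ P, v p = 0 ∧ deriv v p = 1
  qd : Differentiable ℂ q
  qB : ∀ x ∉ P, q x = v x * deriv B x + 2 * deriv v x * B x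
  A1 : ∀ p ∈ P, ‖A p‖ = 1
  grp : ∀ p ∈ P, ∀ p' ∈ P, p + A p * p' ∈ P
  inv : ∀ p ∈ P, ∃ p' ∈ P, p + A p * p' = 0 ∧ A p * A p' = 1
  com : ∀ p ∈ P, ∀ p' ∈ P, p + A p * p' = p' + A p' * p
  vA : ∀ p ∈ P, ∀ x, v (p + A p * x) = A p * v x
  BA : ∀ p ∈ P, ∀ x ∉ P, A p ^ 2 * B (p + A p * x) = B x
  th : ‖θ‖ = 1
  ne : ∃ x, v x ≠ x
  eF : P.Finite → ∃ C : ℝ, ∀ R > (0 : ℝ), ∫ x in ball (0 : ℂ) R, En θ B q x ≤ C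
  eZ : ∀ t : ℂ, t ≠ 0 → P = ZL t → ∃ C : ℝ, ∀ Y > (0 : ℝ), ∀ ε ∈ Ioo (0 : ℝ) (1 / 2),
    ∫ z in {z : ℂ | ε < z.re ∧ z.re < 1 - ε ∧ |z.im| < Y}, En θ B q (t * z) ≤ C

/-! ## Copies -/

/-- GRO: COPY of helper62/V3/GRO.lean. -/
def GRO_stmt : Prop := ∀ (P : Set ℂ) (A g B v q : ℂ → ℂ) (θ : ℂ), Lim P A g B v q θ →
  (∃ p ∈ P, A p ≠ 1) → P.Finite

/-- GTR: COPY of helper13/V3/GTR.lean. -/
def GTR_stmt : Prop := ∀ (P : Set ℂ) (A g B v q : ℂ → ℂ) (θ : ℂ), Lim P A g B v q θ →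
  P.Finite ∨ ∃ t : ℂ, t ≠ 0 ∧ P = ZL t ∧ ∀ p ∈ P, A p = 1

/-- VB1: COPY of helper4/V3/VB1.lean. -/
def VB1_stmt : Prop := ∀ (P : Set ℂ) (A g B v q : ℂ → ℂ) (θ : ℂ), Lim P A g B v q θ →
  (∀ x, q x = 0) → ∀ x ∉ P, v x ^ 2 * B x = 1

/-- ENB: COPY of helper16/V3/ENB.lean. -/
def ENB_stmt : Prop := ∀ (P : Set ℂ) (A g B v q : ℂ → ℂ) (θ : ℂ), Lim P A g B v q θ →
  (∀ x, 0 ≤ En θ B q x ∧ En θ B q x ≤ 2 * ‖q x‖) ∧ Measurable (En θ B q) ∧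
  (∀ R : ℝ, IntegrableOn (En θ B q) (ball 0 R))

/-- FSUM: COPY of helper95/V3/FSUM.lean. -/
def FSUM_stmt : Prop := ∀ (P : Set ℂ) (A g B v q : ℂ → ℂ) (θ : ℂ) (Pf : Finset ℂ),
  Lim P A g B v q θ → P = ↑Pf → ∃ a c : ℂ, ∀ x ∉ P,
    B x = ∑ p ∈ Pf, (1 / (x - p) ^ 2 + g p / (x - p)) + a + c * x

/-- PPE: COPY of helper59/V3/PPE.lean. -/
def PPE_stmt : Prop := ∀ (P : Set ℂ) (A g B v q : ℂ → ℂ) (θ t : ℂ), Lim P A g B v q θ → t ≠ 0 →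
  P = ZL t → (∀ p ∈ P, A p = 1) →
  (∀ x, v (x + t) = v x) ∧ (∀ x, q (x + t) = q x) ∧ (∀ x ∉ P, B (x + t) = B x) ∧ (∀ p ∈ P, g p = g 0)

/-- PDE: COPY of helper58/V3/PDE.lean. -/
def PDE_stmt : Prop := ∀ (P : Set ℂ) (A g B v q : ℂ → ℂ) (θ t : ℂ), Lim P A g B v q θ → t ≠ 0 →
  P = ZL t → ∃ K : ℝ, ∀ x : ℂ, 1 ≤ |(x / t).im| → ‖iteratedDeriv 2 B x‖ ≤ K / |(x / t).im|

/-- PRAT: COPY of helper43/V3/PRAT.lean. -/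
def PRAT_stmt : Prop := ∀ (P : Set ℂ) (A g B v q : ℂ → ℂ) (θ t : ℂ), Lim P A g B v q θ → t ≠ 0 →
  P = ZL t → (∀ p ∈ P, A p = 1) → ∃ α β γ : ℂ, α + β + γ = (2 * Real.pi * I / t) ^ 2 ∧ ∀ x ∉ P,
    B x = (α * exp (2 * Real.pi * I * x / t) ^ 2 + β * exp (2 * Real.pi * I * x / t) + γ) /
      (exp (2 * Real.pi * I * x / t) - 1) ^ 2

/-- PSL: COPY of helper61/V3/PSL.lean. -/
def PSL_stmt : Prop := ∀ (P : Set ℂ) (A g B v q : ℂ → ℂ) (θ t : ℂ), Lim P A g B v q θ → t ≠ 0 →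
  P = ZL t → ∃ C : ℝ, ∀ (Y₁ Y₂ κ : ℝ), Y₁ < Y₂ → 0 ≤ κ →
    (∀ η ∈ Ioo Y₁ Y₂, κ ≤ ∫ s in (0 : ℝ)..1, En θ B q (t * (s + η * I))) → κ * (Y₂ - Y₁) ≤ C

/-! ## Case (F): `P` finite -/

/-- FRT: `B` is rational. Uses FSUM, `V3.FPOL_stmt`.
PROOF. FSUM, FPOL: the numerator polynomial `N`. Its degree: `N = ∑_p (1 + g p (X - p)) ∏_{p'≠p} (X - p')² + (a + c X) ∏ (X - p)²` has degree `≤ 2 #P + 1` (the first sum `≤ 2 #P - 1`); as FPOL only gives a lower bound of the degree, get the upper bound from growth: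
`‖N x‖ ≤ C ‖x‖^(2#P+1)` for large `‖x‖`, since `B x = O(‖x‖)` (or redo FPOL). `N ≠ 0` as `N p ≠ 0`, `0 ∈ P`. -/
def FRT_stmt : Prop := ∀ (P : Set ℂ) (A g B v q : ℂ → ℂ) (θ : ℂ) (Pf : Finset ℂ),
  Lim P A g B v q θ → P = ↑Pf → ∃ N : Polynomial ℂ, N ≠ 0 ∧ N.natDegree ≤ 2 * Pf.card + 1 ∧
    (∀ p ∈ Pf, N.eval p ≠ 0) ∧ ∀ x ∉ Pf, B x = N.eval x / ∏ p ∈ Pf, (x - p) ^ 2

/-- FPP: the phase near infinity, degree `d ≥ 0`.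
PROOF. As `V3.FPH` (helper46/V3/FPH.lean): `N x = lc x^(2#P+d) (1 + O(1/|x|))`, `∏ (x-p)² = x^(2#P) (1 + O(1/|x|))`, so `B x = lc x^d (1 + O(1/|x|))` and `|B|/B = (|lc|/lc) (conj x/|x|)^d (1 + O(1/|x|))`, `‖B x‖ ≥ (|lc|/2) ‖x‖^d`. -/
def FPP_stmt : Prop := ∀ (Pf : Finset ℂ) (N : Polynomial ℂ) (B : ℂ → ℂ) (d : ℕ), N ≠ 0 →
  N.natDegree = 2 * Pf.card + d → (∀ x ∉ Pf, B x = N.eval x / ∏ p ∈ Pf, (x - p) ^ 2) →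
  ∃ (c₀ : ℂ) (K R₀ κ : ℝ), ‖c₀‖ = 1 ∧ 0 < R₀ ∧ 0 < κ ∧ ∀ x : ℂ, R₀ ≤ ‖x‖ →
    ‖((‖B x‖ : ℝ) : ℂ) / B x - c₀ * ((starRingEnd ℂ) x / (‖x‖ : ℝ)) ^ d‖ ≤ K / ‖x‖ ∧ κ * ‖x‖ ^ d ≤ ‖B x‖

/-- FCP: circle integrals of entire functions: Taylor coefficients.
PROOF. `a n = iteratedDeriv n q 0/n!` (or `cauchyPowerSeries`): `∫ q(r e^{iφ}) e^{-inφ} dφ = -i r^n ∮ q(z) z^{-n-1} dz = 2π a n r^n`; `q x = ∑ a n x^n` (`Complex.hasSum_taylorSeries_of_entire` or `Differentiable.hasFPowerSeriesOnBall`). -/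
def FCP_stmt : Prop := ∀ q : ℂ → ℂ, Differentiable ℂ q → ∃ a : ℕ → ℂ,
  (∀ (n : ℕ) (r : ℝ), 0 < r → ∫ φ in (0 : ℝ)..(2 * Real.pi), q (r * exp (φ * I)) * exp (-(n * φ * I)) =
    2 * Real.pi * a n * r ^ n) ∧
  ∀ d : ℕ, (∀ n, d < n → a n = 0) → ∀ x, q x = ∑ n ∈ Finset.range (d + 1), a n * x ^ n

/-- FQN: `q = 0` for negative degree: COPY of helper53/V3/FQ0.lean (there FRAT gives `N`; here it is a hypothesis). Uses `V3.FPH_stmt`, `V3.FCI_stmt`, `V3.FPL_stmt`, ENB. -/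
def FQN_stmt : Prop := ∀ (P : Set ℂ) (A g B v q : ℂ → ℂ) (θ : ℂ) (Pf : Finset ℂ) (N : Polynomial ℂ),
  Lim P A g B v q θ → P = ↑Pf → N ≠ 0 → N.natDegree < 2 * Pf.card →
  (∀ x ∉ Pf, B x = N.eval x / ∏ p ∈ Pf, (x - p) ^ 2) → ∀ x, q x = 0

/-- FQP: bound of `q` for degree `d ≥ 0` [XP, (8.2)]. Uses FPP, FCP, `V3.FPL_stmt`, ENB.
PROOF. FCP: `a n`. Let `n > d` with `a n ≠ 0`. On `|x| = r ≥ R₀` large: `En ≥ ‖q‖ (1 - K/r) - Re(θ c₀ q (conj x/|x|)^d)`, `(conj x/|x|)^d = e^{-idφ}`; integrate over the circle: `∫ En ≥ (1 - K/r) ∫‖q‖ - ‖∫ q e^{-idφ}‖ ≥ (1 - K/r) 2π ‖a n‖ r^n - 2π ‖a d‖ r^d ≥ 1` for all large `r`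
(`∫‖q‖ ≥ ‖∫ q e^{-inφ}‖`, `n > d`). FPL with `κ = 1` and ENB: `∫_{ball 0 R} En ≥ (R² - R₁²)/2`: contradiction to `Lim.eF`. So `a n = 0` for `n > d` and `q` is a polynomial of degree `≤ d`. -/
def FQP_stmt : Prop := ∀ (P : Set ℂ) (A g B v q : ℂ → ℂ) (θ : ℂ) (Pf : Finset ℂ) (N : Polynomial ℂ) (d : ℕ),
  Lim P A g B v q θ → P = ↑Pf → N ≠ 0 → N.natDegree = 2 * Pf.card + d →
  (∀ x ∉ Pf, B x = N.eval x / ∏ p ∈ Pf, (x - p) ^ 2) → ∃ C : ℝ, 0 ≤ C ∧ ∀ x, ‖q x‖ ≤ C * (1 + ‖x‖) ^ d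

/-- FGR: growth of `v` [XP, (8.2)]. Uses FPP.
PROOF. Let `R₁ ≥ max R₀ 1` with `‖p‖ < R₁` for `p ∈ Pf` and `F = v² B` on `‖x‖ ≥ R₁`: `F' = v (v B' + 2 v' B) = v q`. For `r ≥ R₁` let `m` be the maximum of `‖F‖` on the compact ring `R₁ ≤ ‖x‖ ≤ r`, attained at `x`; `x₁ = R₁ x/‖x‖`. On the segment `[x₁, x]`: `‖v‖² = ‖F‖/‖B‖ ≤ m/(κ ‖y‖^d)`,
`‖v q‖ ≤ (m/κ)^{1/2} ‖y‖^{-d/2} C (2‖y‖)^d ≤ C₁ m^{1/2} r^{d/2}`, so `m ≤ m₁ + C₁ m^{1/2} r^{d/2+1}` with `m₁ = max ‖F‖` on `‖x‖ = R₁` (mean value inequality or integral along the segment). So `m^{1/2} ≤ m₁^{1/2} + C₁ r^{d/2+1}` and `‖v x‖² ≤ ‖F x‖/(κ‖x‖^d) ≤ C₂ ‖x‖²` for `‖x‖ = r` (`r ≥ 1`).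
(Half powers: use squares `r^{d+2}` and `Real.sqrt`.) An entire function with `‖v x‖ ≤ C₃ (1 + ‖x‖)` is affine (Cauchy's estimate for `v''`), so `v x = v 0 + v'(0) x = x`. -/
def FGR_stmt : Prop := ∀ (Pf : Finset ℂ) (N : Polynomial ℂ) (B v q : ℂ → ℂ) (d : ℕ) (C : ℝ), N ≠ 0 →
  N.natDegree = 2 * Pf.card + d → (∀ x ∉ Pf, B x = N.eval x / ∏ p ∈ Pf, (x - p) ^ 2) →
  Differentiable ℂ v → Differentiable ℂ q → (∀ x ∉ Pf, q x = v x * deriv B x + 2 * deriv v x * B x) →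
  (∀ x, ‖q x‖ ≤ C * (1 + ‖x‖) ^ d) → v 0 = 0 → deriv v 0 = 1 → ∀ x, v x = x

/-- FEN: case (F) is impossible. Uses FRT, FQN, FQP, FGR, VB1, `V3.SQC_stmt`, `V3.FLAG_stmt`, `V3.PCO_stmt`.
PROOF. `Pf = P.toFinset`. FRT: `N`. If `natDegree N = 2#P + d`, `d ≥ 0`: FQP, FGR: `v = id`, contradiction to `Lim.ne`. Otherwise FQN: `q = 0`; then as helper23/V3/FEND.lean: `v² N = ∏ (x-p)²` everywhere, `N` has no roots, so it is constant, `v = c' ∏ (x-p)` (SQC), `v'(p) = c' ∏_{p'≠p} (p-p') = 1`;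
`#P ≥ 2`: FLAG gives `#P c' = 0`, contradiction; `#P = 1`: `P = {0}`, `v x = c' x = x`: contradiction to `Lim.ne`. -/
def FEN_stmt : Prop := ∀ (P : Set ℂ) (A g B v q : ℂ → ℂ) (θ : ℂ), Lim P A g B v q θ → P.Finite → False

/-! ## Case (Z): `P = ℤ t`, `y = exp (2πi x/t)`, `x = t (s + iη)` -/

/-- PPH: the phases at the two ends (compare helper73/V3/PPH.lean).
PROOF. `B = (α y² + β y + γ)/(y-1)²`. For `η → +∞`, `y → 0`: `B = γ(1+O(|y|))` (`j₁ = 0`), or `γ = 0`: `B = β y (1 + O(|y|))` (`j₁ = 1`), or `γ = β = 0`: `B = α y² (1+O(|y|))` (`j₁ = 2`). For `η → -∞`, `|y| → ∞`: `B = α (1+O(1/|y|))` (`j₂ = 0`), `α = 0`: `B = (β/y)(1 + ..)` (`j₂ = -1`),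
`α = β = 0`: `B = (γ/y²)(1+..)` (`j₂ = -2`). `y = e^{2πis} e^{-2πη}`. -/
def PPH_stmt : Prop := ∀ (B : ℂ → ℂ) (t α β γ : ℂ), t ≠ 0 → (α ≠ 0 ∨ β ≠ 0 ∨ γ ≠ 0) → (∀ x ∉ ZL t,
    B x = (α * exp (2 * Real.pi * I * x / t) ^ 2 + β * exp (2 * Real.pi * I * x / t) + γ) /
      (exp (2 * Real.pi * I * x / t) - 1) ^ 2) →
  ∃ (K Y₀ : ℝ) (j₁ j₂ : ℤ) (c₁ c₂ : ℂ), 0 < Y₀ ∧ 0 ≤ j₁ ∧ j₂ ≤ 0 ∧ (γ = 0 → 1 ≤ j₁) ∧ (α = 0 → j₂ ≤ -1) ∧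
    ‖c₁‖ = 1 ∧ ‖c₂‖ = 1 ∧
    (∀ s η : ℝ, Y₀ ≤ η → ‖((‖B (t * (s + η * I))‖ : ℝ) : ℂ) / B (t * (s + η * I)) -
      c₁ * exp (-(2 * Real.pi * I * j₁ * s))‖ ≤ K * Real.exp (-(2 * Real.pi * η))) ∧
    (∀ s η : ℝ, η ≤ -Y₀ → ‖((‖B (t * (s + η * I))‖ : ℝ) : ℂ) / B (t * (s + η * I)) -
      c₂ * exp (-(2 * Real.pi * I * j₂ * s))‖ ≤ K * Real.exp (2 * Real.pi * η))

/-- PQC: `q` is constant, and `0` if `α γ = 0` [XP, (8.3)] (compare helper58/V3/PQ0.lean). Uses PPE, PPH, PSL, `V3.PFO_stmt`, `V3.PIN_stmt`.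
PROOF. `c n` from PFO for `q`. Upper end, `n < 0`: if `c n ≠ 0`: for `η ≥ Y₁` large PIN (with `j₁`) gives `∫_0^1 En ≥ (1 - K e^{-2πη}) |c n| e^{2π|n|η} - |c j₁| e^{-2πj₁η} ≥ 1 =: κ` (the first term tends to `∞`, the second is `≤ |c j₁|`): PSL with `Y₂ → ∞`: contradiction. Lower end, `n > 0`: the same with `η → -∞`
(`|c n| e^{-2πnη} → ∞`, `|c j₂| e^{-2πj₂η} ≤ |c j₂|` as `j₂ ≤ 0`, `η < 0`). So `c n = 0` for `n ≠ 0`; the function `q - c 0` has all coefficients `0` (PFO for `q - c 0`; its coefficients are `c n - [n=0] c 0`): `q = c 0`. If `γ = 0`: `j₁ ≥ 1`, `c j₁ = 0`, so `∫ En ≥ (1 - K e^{-2πη}) |c 0| ≥ |c 0|/2` for large `η`: `c 0 = 0`.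
If `α = 0`: the same at the lower end with `j₂ ≤ -1`. (`α + β + γ ≠ 0` for PPH.) -/
def PQC_stmt : Prop := ∀ (P : Set ℂ) (A g B v q : ℂ → ℂ) (θ t α β γ : ℂ), Lim P A g B v q θ → t ≠ 0 →
  P = ZL t → (∀ p ∈ P, A p = 1) → α + β + γ = (2 * Real.pi * I / t) ^ 2 → (∀ x ∉ P,
    B x = (α * exp (2 * Real.pi * I * x / t) ^ 2 + β * exp (2 * Real.pi * I * x / t) + γ) /
      (exp (2 * Real.pi * I * x / t) - 1) ^ 2) →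
  (∃ c : ℂ, ∀ x, q x = c) ∧ ((α = 0 ∨ γ = 0) → ∀ x, q x = 0)

/-- PVG: `α γ ≠ 0` is impossible [XP, (8.3)]. Uses PPE, `V3.PFO_stmt`.
PROOF. `‖B x‖ ≥ κ > 0` for `|Im (x/t)| ≥ Y₁` (limits `γ`, `α` at the two ends). `F = v² B`, `F' = v q = c v` off `P`. For `η ≥ Y₁` let `m` be the supremum of `‖F‖` over `Y₁ ≤ Im(x/t) ≤ η` (`F` has period `t`, so it is a maximum over the compact set `0 ≤ Re (x/t) ≤ 1`), attained at `x = t(s+iη')`; along the segment from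
`t(s + iY₁)`: `m ≤ m₁ + ‖c‖ ‖t‖ (η - Y₁) (m/κ)^{1/2}`, so `m^{1/2} ≤ m₁^{1/2} + ‖c‖‖t‖ η/κ^{1/2}` and `‖v x‖ ≤ C (1 + η)`. The same for `η ≤ -Y₁`; in between `v` is bounded (periodic). So `‖v (t(s+iη))‖ ≤ C (1 + |η|)` for all `s, η`. PFO for `v`: `|c n| e^{-2πnη} ≤ C (1 + |η|)` for all `η`, so `c n = 0` for
`n ≠ 0`, and `v - c 0` has all coefficients `0`: `v` is constant, contradiction to `deriv v 0 = 1`. -/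
def PVG_stmt : Prop := ∀ (P : Set ℂ) (A g B v q : ℂ → ℂ) (θ t α β γ c : ℂ), Lim P A g B v q θ → t ≠ 0 →
  P = ZL t → (∀ p ∈ P, A p = 1) → (∀ x ∉ P,
    B x = (α * exp (2 * Real.pi * I * x / t) ^ 2 + β * exp (2 * Real.pi * I * x / t) + γ) /
      (exp (2 * Real.pi * I * x / t) - 1) ^ 2) → α ≠ 0 → γ ≠ 0 → (∀ x, q x = c) → False

/-- PEN: end of case (Z) (compare helper12/V3/PEN.lean, helper3/V3/PSG.lean). Uses PRAT, PQC, PVG, VB1, `V3.SQC_stmt`, `V3.PCO_stmt`.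
PROOF. PRAT: `α, β, γ`. PQC, PVG: `α γ = 0` and `q = 0`; VB1: `v² B = 1` off `P`. If `γ = 0` take `t' = t`; if `α = 0` take `t' = -t` (`ZL (-t) = ZL t`, `y' = 1/y`, `(β y + γ)/(y-1)² = (γ y'² + β y')/(y'-1)²`). So `B = (α y² + β y)/(y-1)²`, `α + β = L² ≠ 0`. Then as in helper12/V3/PEN.lean: `α β = 0` (otherwise a zero of `B` off `P`);
`α = 0`: `v(x+t) = -v(x)`, contradiction to the period `t`; `β = 0`: `v = c'(1 - 1/y)`. -/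
def PEN_stmt : Prop := ∀ (P : Set ℂ) (A g B v q : ℂ → ℂ) (θ t : ℂ), Lim P A g B v q θ → t ≠ 0 →
  P = ZL t → (∀ p ∈ P, A p = 1) → ∃ t' c' : ℂ, t' ≠ 0 ∧ P = ZL t' ∧ c' ≠ 0 ∧
    (∀ x, v x = c' * (1 - exp (-(2 * Real.pi * I * x / t')))) ∧ ∀ x ∉ P, v x ^ 2 * B x = 1

/-- ENDG: the end game. PROOF. GTR, FEN, PEN. -/
def ENDG_stmt : Prop := ∀ (P : Set ℂ) (A g B v q : ℂ → ℂ) (θ : ℂ), Lim P A g B v q θ →
  ∃ t c' : ℂ, t ≠ 0 ∧ P = ZL t ∧ (∀ p ∈ P, A p = 1) ∧ c' ≠ 0 ∧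
    (∀ x, v x = c' * (1 - exp (-(2 * Real.pi * I * x / t)))) ∧ ∀ x ∉ P, v x ^ 2 * B x = 1

/-! ## Case II [XP, 7] -/

/-- C2Q: zero energy.
PROOF. `En θ B q ≥ 0` and it is continuous off the zeros of `B` (isolated); so `En = 0` on `ball 0 c` off the zeros of `B`: `‖q x‖ = Re (θ q x |B x|/B x)` and `‖θ q |B|/B‖ = ‖q‖`, so `θ q x/B x` is real and `≥ 0` there. A real valued holomorphic function on the connected open set (ball minus a discrete set; or on a small ball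
where `B ≠ 0`, `AnalyticOnNhd`/open mapping) is constant: `q = τ B` on a small ball, identity theorem. Integrability: `‖En‖ ≤ 2‖q‖` bounded, measurable. -/
def C2Q_stmt : Prop := ∀ (θ : ℂ) (B q : ℂ → ℂ) (c : ℝ), ‖θ‖ = 1 → 0 < c → Differentiable ℂ B → Differentiable ℂ q →
  (∃ x, B x ≠ 0) → ∫ x in ball (0 : ℂ) c, En θ B q x ≤ 0 → ∃ τ : ℂ, ∀ x, q x = τ * B x

/-- C2V: the affine case.
PROOF. `a₁ = 0`: `2 v' = τ`, `v' = v'(0) = 1`, `v x = x`. `a₁ ≠ 0`: `x₁ = -a₀/a₁`, `w x = v x - (τ/3)(x - x₁)` satisfies `w + 2 (x - x₁) w' = 0` (divide by `a₁`); `((x - x₁) w²)' = w (w + 2 (x-x₁) w') = 0`, so `(x - x₁) w²` is constant `= 0`, `w = 0` off `x₁`, hence everywhere. `v x = (τ/3)(x - x₁)`, `deriv v 0 = 1`: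
`τ = 3`, `v 0 = 0`: `x₁ = 0`. -/
def C2V_stmt : Prop := ∀ (v : ℂ → ℂ) (a₀ a₁ τ : ℂ), Differentiable ℂ v → (a₀ ≠ 0 ∨ a₁ ≠ 0) → v 0 = 0 → deriv v 0 = 1 →
  (∀ x, v x * a₁ + 2 * deriv v x * (a₀ + a₁ * x) = τ * (a₀ + a₁ * x)) → ∀ x, v x = x

end XPE
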