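import Pool.Agent.helper60.XP.SpecD
import Pool.Agent.helper60.XP.SpecT
import Pool.Agent.helper60.XP.SpecE
import Pool.Agent.helper54.XP.DefsG

/-!
# Project xp: (MP_af9036_an), part X: assembly of the abstract main theorem `XP.XM_stmt`

Paper: /team-store/MP_af9036_XP_helper60.md. File `Pool/Agent/<seat>/XP/XX.lean`: `import Pool.Agent.helper60.XP.SpecX`, `set_option autoImplicit false`,
`open Complex Metric Set Filter Topology MeasureTheory`, `open V3S (UF)`, `open XP`, `noncomputable section`, `namespace XPX`, `theorem XX (h : YY_stmt) ... : XX_stmt`.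
Hypotheses: as named in the docstrings. Auxiliary lemmas are prefixed `XX_`. No `sorry`, no double quotes in comments.
-/

set_option autoImplicit false

open Complex Metric Set Filter Topology MeasureTheory
open V3S (UF)
open XP

noncomputable section

namespace XPX

/-- `ν = 1 + |Bb(1/2)| + |Bb(-1/2)|`. -/
def nu (D : Dat) : ℝ := 1 + ‖D.Bb (1 / 2)‖ + ‖D.Bb (-1 / 2)‖

/-- NRM: choice of the normalising factor: cases I and II [XP, 3]. Uses the statements of part N (Pool/Agent/helper36/XP/SpecN.lean).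
PROOF. `UF` is an ultrafilter: either `ν` is bounded along `UF` (case I, `s = 1`) or `ν → ∞` along `UF` (case II, `s = 1/ν`). -/
def NRM_stmt : Prop := ∀ (n : ℕ) (C : ℝ) (D : ℕ → Dat), Seq n C D →
  (∀ D' : ℕ → Dat, (∀ m, D' m = (D m).par 1 (D' m).N (D' m).om (D' m).de) → LB D' ∧ ∃ g, XPG.CI D' g) ∨
  (∀ D' : ℕ → Dat, (∀ m, D' m = (D m).par (nu (D m))⁻¹ (D' m).N (D' m).om (D' m).de) →
    LB D' ∧ ∃ a₀ a₁ : ℂ, XPG.CII D' a₀ a₁)

/-- EN1M: interface to part G, case I. Uses `XPE.ENDG_stmt`. PROOF. `LimX` gives `XPE.Lim` (`sep` with `s = 1`; `ne` from `far`: `v x = x` would give `‖v x - x‖ = 0`). -/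
def EN1M_stmt : Prop := XPG.EN1_stmt

/-- EN2M: interface to part G, case II. Uses `XPE.C2Q_stmt`, `XPE.C2V_stmt`. PROOF. C2Q: `q = τ (a₀ + a₁ x)`; C2V. -/
def EN2M_stmt : Prop := XPG.EN2_stmt

/-- XCB: case `ζ ≠ 1` is impossible. Uses NRM, `XPT.STB_stmt`, `XPL.BEN_stmt`.
PROOF. NRM: in both cases `D₁ m = (D m).par s_m 1 1 1` with `0 < s_m ≤ 1` (`s_m = 1` or `1/ν`, `ν ≥ 1`) satisfies `LB D₁`, `Seq n C D₁`, `SeqB η ζ D₁` (the fields do not depend on the parameters). STB: `N, om, de`, `D₂ m = (D₁ m).par ..`, `Par D₂`, `ST D₂`; `LB D₂` (`Bin D₂ = Bin D₁` etc. by `rfl`). BEN. -/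
def XCB_stmt : Prop := ∀ (n : ℕ) (C η : ℝ) (ζ : ℂ) (D : ℕ → Dat), 1 ≤ C → Seq n C D → SeqB η ζ D → False

/-- XCA: case `ζ = 1` is impossible. Uses NRM, `XPT.STA_stmt`, the final statements GF1, GF2 of Pool/Agent/helper54/XP/SpecG.lean (case I, case II), EN1M, EN2M.
PROOF. NRM with `D' m = (D m).par s_m 1 (C'‖lam‖) (C'‖lam‖)`, `s_m = 1` or `1/ν ∈ (0,1]`: `Seq`, `SeqA`, `ParA C' D'`, `Par D'` (`N E = E ≤ C'‖lam‖`, `lam → 0`, `lam ≠ 0` by `lam0`), `LB D'`; STA: `ST D'`; so `XPG.HG n C C' C' D'`; GF1 or GF2. -/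
def XCA_stmt : Prop := ∀ (n : ℕ) (C C' : ℝ) (D : ℕ → Dat), 1 ≤ C → Seq n C D → SeqA C' D → False

/-- XMM: the abstract main theorem. Uses `XPD.DCA_stmt`, `XPD.DCB_stmt`, XCA, XCB.
PROOF. Suppose it fails for `n, C₀ := C`: for every `m` a counterexample with `ε = 1/(m+2)`. `‖ρ_m‖ → 1` (`0 < log‖ρ_m‖ ≤ ε`), so along a subsequence `ρ_m → ζ`, `‖ζ‖ = 1`. If `ζ = 1`: `lam = Complex.log ρ_m → 0`, `exp lam = ρ_m`, `re lam = log‖ρ_m‖ > 0`; for large `m` DCA: data `D_m` (constant `C` of DCA), `A_m = 1/ε_m → ∞`,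
`E ≤ C₀‖lam‖ → 0` (`E ≥ 0`: Eng.E0); shift the index: `Seq`, `SeqA (max C₀ 1)`: XCA. If `ζ ≠ 1`: `d = ‖ζ - 1‖/2`, for large `m`: `d ≤ ‖ρ_m - 1‖`, `‖ρ_m‖ ≤ 3/2`: DCB: `η, C`, data `D_m` with `rho = ρ_m`, `E = C₀ log‖ρ_m‖ → 0`: `Seq`, `SeqB η ζ`: XCB. -/
def XMM_stmt : Prop := XM_stmt

end XPX
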