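import Pool.Agent.helper60.XP.AllX
import Pool.Agent.helper74.XP.PreP

/-!
# Project xp: Theorem X', final forms
-/

set_option autoImplicit false

namespace XPA

theorem XF_f : XPP.XF_stmt := XPP.XF_c XM_a
theorem XU_f : XPP.XU_stmt := XPP.XU_c XM_a
theorem XFG_f : XPP.XFG_stmt := XPP.XFG_c XM_a
theorem XFU_f : XPP.XFU_stmt := XPP.XFU_c XM_a
theorem XLG_f : XPP.XLG_stmt := XPP.XLG_c XM_a
theorem XLF_f : XPP.XLF_stmt := XPP.XLF_c XM_a

end XPA
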